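import Mathlib

/-!
Shannon entropy on finite probability spaces.
-/

set_option autoImplicit false

open Finset Real

namespace Pool.Agent.Lib.PFR

open Classical in
/-- The indicator of a proposition. -/
noncomputable def ind (E : Prop) : ℝ := if E then 1 else 0

theorem ind_pos {E : Prop} (h : E) : ind E = 1 := by simp [ind, h]
theorem ind_neg {E : Prop} (h : ¬ E) : ind E = 0 := by simp [ind, h]
theorem ind_nonneg (E : Prop) : 0 ≤ ind E := by unfold ind; split_ifs <;> norm_num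
theorem ind_le_one (E : Prop) : ind E ≤ 1 := by unfold ind; split_ifs <;> norm_num
theorem ind_congr {E F : Prop} (h : E ↔ F) : ind E = ind F := by rw [propext h]
theorem ind_and (E F : Prop) : ind (E ∧ F) = ind E * ind F := by
  by_cases h1 : E <;> by_cases h2 : F <;> simp [ind, h1, h2]
theorem ind_mono {E F : Prop} (h : E → F) : ind E ≤ ind F := by
  by_cases h1 : E
  · rw [ind_pos h1, ind_pos (h h1)]
  · rw [ind_neg h1]; exact ind_nonneg _
theorem sum_ind_eq {S : Type*} [Fintype S] (s : S) (F : S → ℝ) :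
    ∑ y, ind (s = y) * F y = F s := by
  classical
  rw [Finset.sum_eq_single s]
  · rw [ind_pos rfl, one_mul]
  · intro b _ hb; rw [ind_neg (Ne.symm hb), zero_mul]
  · intro h; exact absurd (mem_univ s) h

/-- A probability vector on a finite type. -/
structure FP (Ω : Type*) [Fintype Ω] where
  p : Ω → ℝ
  nonneg : ∀ ω, 0 ≤ p ω
  sum_one : ∑ ω, p ω = 1

namespace FP

variable {Ω Ω' S T U V : Type*} [Fintype Ω] [Fintype Ω']

theorem ext' {P Q : FP Ω} (h : ∀ ω, P.p ω = Q.p ω) : P = Q := by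
  cases P; cases Q; congr; exact funext h

/-- Expectation. -/
def ex (P : FP Ω) (F : Ω → ℝ) : ℝ := ∑ ω, P.p ω * F ω

/-- Probability of an event. -/
noncomputable def pr (P : FP Ω) (E : Ω → Prop) : ℝ := P.ex fun ω => ind (E ω)

/-- Probability of the value taken at `ω`. -/
noncomputable def pv (P : FP Ω) (f : Ω → S) (ω : Ω) : ℝ := P.pr fun ω' => f ω' = f ω

/-- Entropy of a random variable. -/
noncomputable def ent (P : FP Ω) (f : Ω → S) : ℝ := P.ex fun ω => - log (P.pv f ω)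

variable (P : FP Ω)

theorem pos_of_ne {ω : Ω} (h : P.p ω ≠ 0) : 0 < P.p ω := lt_of_le_of_ne (P.nonneg ω) (Ne.symm h)

theorem ex_mono {F G : Ω → ℝ} (h : ∀ ω, P.p ω ≠ 0 → F ω ≤ G ω) : P.ex F ≤ P.ex G := by
  refine sum_le_sum fun ω _ => ?_
  by_cases h0 : P.p ω = 0
  · simp [h0]
  · exact mul_le_mul_of_nonneg_left (h ω h0) (P.nonneg ω)

theorem ex_congr {F G : Ω → ℝ} (h : ∀ ω, P.p ω ≠ 0 → F ω = G ω) : P.ex F = P.ex G :=
  le_antisymm (P.ex_mono fun ω h0 => (h ω h0).le) (P.ex_mono fun ω h0 => (h ω h0).ge)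

theorem ex_const (c : ℝ) : P.ex (fun _ => c) = c := by
  rw [ex, ← sum_mul, P.sum_one, one_mul]

theorem ex_add (F G : Ω → ℝ) : P.ex (fun ω => F ω + G ω) = P.ex F + P.ex G := by
  simp only [ex, mul_add, sum_add_distrib]

theorem ex_sub (F G : Ω → ℝ) : P.ex (fun ω => F ω - G ω) = P.ex F - P.ex G := by
  simp only [ex, mul_sub, sum_sub_distrib]

theorem ex_neg (F : Ω → ℝ) : P.ex (fun ω => - F ω) = - P.ex F := by
  simp only [ex, mul_neg, sum_neg_distrib]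

theorem ex_mul_const (F : Ω → ℝ) (c : ℝ) : P.ex (fun ω => F ω * c) = P.ex F * c := by
  simp only [ex, sum_mul, mul_assoc]

theorem ex_const_mul (c : ℝ) (F : Ω → ℝ) : P.ex (fun ω => c * F ω) = c * P.ex F := by
  simp only [ex, mul_sum]
  exact sum_congr rfl fun _ _ => by ring

theorem ex_div (F : Ω → ℝ) (c : ℝ) : P.ex (fun ω => F ω / c) = P.ex F / c := by
  simp only [div_eq_mul_inv, ex_mul_const]

theorem ex_sum {ι : Type*} (s : Finset ι) (F : ι → Ω → ℝ) :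
    P.ex (fun ω => ∑ i ∈ s, F i ω) = ∑ i ∈ s, P.ex (F i) := by
  simp only [ex, mul_sum]
  exact sum_comm

theorem ex_nonneg {F : Ω → ℝ} (h : ∀ ω, P.p ω ≠ 0 → 0 ≤ F ω) : 0 ≤ P.ex F := by
  have := P.ex_mono (F := fun _ => 0) h
  rwa [ex_const] at this

theorem ex_le_const {F : Ω → ℝ} {c : ℝ} (h : ∀ ω, P.p ω ≠ 0 → F ω ≤ c) : P.ex F ≤ c := by
  have := P.ex_mono (G := fun _ => c) h
  rwa [ex_const] at this

theorem const_le_ex {F : Ω → ℝ} {c : ℝ} (h : ∀ ω, P.p ω ≠ 0 → c ≤ F ω) : c ≤ P.ex F := by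
  have := P.ex_mono (F := fun _ => c) h
  rwa [ex_const] at this

theorem ex_comm (Q : FP Ω') (F : Ω → Ω' → ℝ) :
    P.ex (fun a => Q.ex fun b => F a b) = Q.ex fun b => P.ex fun a => F a b := by
  simp only [ex, mul_sum]
  rw [sum_comm]
  exact sum_congr rfl fun _ _ => sum_congr rfl fun _ _ => by ring

theorem exists_supp : ∃ ω, P.p ω ≠ 0 := by
  by_contra h
  push Not at h
  have := P.sum_one
  simp [h] at this

theorem exists_le_ex (F : Ω → ℝ) : ∃ ω, P.p ω ≠ 0 ∧ F ω ≤ P.ex F := by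
  classical
  obtain ⟨ω0, h0⟩ := P.exists_supp
  obtain ⟨ω, h1, h2⟩ := exists_min_image (univ.filter fun ω => P.p ω ≠ 0) F
    ⟨ω0, by simpa using h0⟩
  exact ⟨ω, by simpa using h1, P.const_le_ex fun ω' h => h2 ω' (by simpa using h)⟩

theorem exists_ex_le (F : Ω → ℝ) : ∃ ω, P.p ω ≠ 0 ∧ P.ex F ≤ F ω := by
  obtain ⟨ω, h1, h2⟩ := P.exists_le_ex fun ω => - F ω
  rw [ex_neg] at h2
  exact ⟨ω, h1, by linarith⟩

theorem eq_zero_of_ex {F : Ω → ℝ} (h : ∀ ω, P.p ω ≠ 0 → 0 ≤ F ω) (h0 : P.ex F ≤ 0) (ω : Ω)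
    (hω : P.p ω ≠ 0) : F ω = 0 := by
  have h1 : ∀ ω ∈ (univ : Finset Ω), 0 ≤ P.p ω * F ω := fun ω _ => by
    by_cases h0 : P.p ω = 0
    · simp [h0]
    · exact mul_nonneg (P.nonneg ω) (h ω h0)
  have h2 := (sum_eq_zero_iff_of_nonneg h1).mp (le_antisymm h0 (sum_nonneg h1)) ω (mem_univ ω)
  exact (mul_eq_zero.mp h2).resolve_left hω

theorem ex_ind_eq (ω : Ω) (F : Ω → ℝ) : P.ex (fun ω' => ind (ω = ω') * F ω') = P.p ω * F ω := by
  rw [← sum_ind_eq ω fun y => P.p y * F y, ex]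
  exact sum_congr rfl fun _ _ => by ring

theorem pr_eq_self (ω : Ω) : P.pr (fun ω' => ω' = ω) = P.p ω := by
  have := P.ex_ind_eq ω fun _ => 1
  simp only [mul_one] at this
  rw [← this, pr]
  exact P.ex_congr fun _ _ => ind_congr eq_comm

theorem ext_ex {P Q : FP Ω} (h : ∀ F, P.ex F = Q.ex F) : P = Q :=
  ext' fun ω => by rw [← pr_eq_self, ← pr_eq_self, pr, pr, h]

theorem pr_mono {E F : Ω → Prop} (h : ∀ ω, P.p ω ≠ 0 → E ω → F ω) : P.pr E ≤ P.pr F :=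
  P.ex_mono fun ω h0 => ind_mono (h ω h0)

theorem pr_congr {E F : Ω → Prop} (h : ∀ ω, P.p ω ≠ 0 → (E ω ↔ F ω)) : P.pr E = P.pr F :=
  P.ex_congr fun ω h0 => ind_congr (h ω h0)

theorem pr_nonneg (E : Ω → Prop) : 0 ≤ P.pr E := P.ex_nonneg fun _ _ => ind_nonneg _

theorem pr_le_one (E : Ω → Prop) : P.pr E ≤ 1 := P.ex_le_const fun _ _ => ind_le_one _

theorem le_pr {E : Ω → Prop} {ω : Ω} (h : E ω) : P.p ω ≤ P.pr E := by
  rw [← pr_eq_self]
  exact P.pr_mono fun ω' _ h' => h' ▸ h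

theorem pr_pos {E : Ω → Prop} {ω : Ω} (h0 : P.p ω ≠ 0) (h : E ω) : 0 < P.pr E :=
  (P.pos_of_ne h0).trans_le (P.le_pr h)

theorem pv_pos (f : Ω → S) {ω : Ω} (h0 : P.p ω ≠ 0) : 0 < P.pv f ω := P.pr_pos h0 rfl

theorem exists_of_pr_ne {E : Ω → Prop} (h : P.pr E ≠ 0) : ∃ ω, P.p ω ≠ 0 ∧ E ω := by
  by_contra hc
  push Not at hc
  apply h
  rw [pr, ← P.ex_const 0]
  exact P.ex_congr fun ω h0 => ind_neg (hc ω h0)

theorem pr_true {E : Ω → Prop} (h : ∀ ω, P.p ω ≠ 0 → E ω) : P.pr E = 1 := by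
  rw [pr, ← P.ex_const 1]
  exact P.ex_congr fun ω h0 => ind_pos (h ω h0)

theorem ent_nonneg (f : Ω → S) : 0 ≤ P.ent f :=
  P.ex_nonneg fun _ _ => neg_nonneg.mpr (log_nonpos (P.pr_nonneg _) (P.pr_le_one _))

theorem ent_mono' {f : Ω → S} {g : Ω → T}
    (h : ∀ ω ω', P.p ω ≠ 0 → P.p ω' ≠ 0 → f ω = f ω' → g ω = g ω') : P.ent g ≤ P.ent f :=
  P.ex_mono fun ω h0 => neg_le_neg (log_le_log (P.pv_pos f h0)
    (P.pr_mono fun ω' h1 h2 => h ω' ω h1 h0 h2))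

theorem ent_mono {f : Ω → S} {g : Ω → T} (h : ∀ ω ω', f ω = f ω' → g ω = g ω') :
    P.ent g ≤ P.ent f := P.ent_mono' fun ω ω' _ _ => h ω ω'

theorem ent_congr' {f : Ω → S} {g : Ω → T}
    (h : ∀ ω ω', P.p ω ≠ 0 → P.p ω' ≠ 0 → (f ω = f ω' ↔ g ω = g ω')) : P.ent f = P.ent g :=
  le_antisymm (P.ent_mono' fun ω ω' h1 h2 => (h ω ω' h1 h2).mpr)
    (P.ent_mono' fun ω ω' h1 h2 => (h ω ω' h1 h2).mp)

theorem ent_congr {f : Ω → S} {g : Ω → T} (h : ∀ ω ω', f ω = f ω' ↔ g ω = g ω') :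
    P.ent f = P.ent g := P.ent_congr' fun ω ω' _ _ => h ω ω'

theorem ent_const {f : Ω → S} (h : ∀ ω ω', P.p ω ≠ 0 → P.p ω' ≠ 0 → f ω = f ω') :
    P.ent f = 0 := by
  rw [ent, ← P.ex_const 0]
  refine P.ex_congr fun ω h0 => ?_
  rw [pv, P.pr_true fun ω' h1 => h ω' ω h1 h0, log_one, neg_zero]

theorem gibbs {r : Ω → ℝ} (h0 : ∀ ω, P.p ω ≠ 0 → 0 < r ω) (h1 : P.ex r ≤ 1) :
    P.ex (fun ω => log (r ω)) ≤ 0 := by
  have := P.ex_mono (F := fun ω => log (r ω)) (G := fun ω => r ω - 1)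
    fun ω h => log_le_sub_one_of_pos (h0 ω h)
  rw [ex_sub, ex_const] at this
  linarith

theorem gibbs_eq {r : Ω → ℝ} (h0 : ∀ ω, P.p ω ≠ 0 → 0 < r ω) (h1 : P.ex r ≤ 1)
    (h2 : 0 ≤ P.ex (fun ω => log (r ω))) (ω : Ω) (hω : P.p ω ≠ 0) : r ω = 1 := by
  have h3 := P.eq_zero_of_ex (F := fun ω => r ω - 1 - log (r ω))
    (fun ω h => sub_nonneg.mpr (log_le_sub_one_of_pos (h0 ω h)))
    (by rw [ex_sub, ex_sub, ex_const]; linarith) ω hω
  by_contra hne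
  have := log_lt_sub_one_of_pos (h0 ω hω) hne
  linarith

theorem ratio_le_one (f : Ω → S) (g : Ω → T) (h : Ω → U)
    (hf : ∀ ω ω', P.p ω ≠ 0 → P.p ω' ≠ 0 → f ω = f ω' → h ω = h ω')
    (hg : ∀ ω ω', P.p ω ≠ 0 → P.p ω' ≠ 0 → g ω = g ω' → h ω = h ω') :
    P.ex (fun ω => P.pv f ω * P.pv g ω / (P.pv (fun ω => (f ω, g ω)) ω * P.pv h ω)) ≤ 1 := by
  set c : Ω → ℝ := P.pv (fun ω => (f ω, g ω)) with hc
  set e : Ω → ℝ := P.pv h with he
  have e1 : ∀ ω, P.pv f ω * P.pv g ω / (c ω * e ω) =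
      P.ex fun ω1 => P.ex fun ω2 => ind (f ω1 = f ω) * ind (g ω2 = g ω) / (c ω * e ω) := by
    intro ω
    simp only [ex_div, ex_const_mul, ex_mul_const, pr, pv]
  rw [P.ex_congr fun ω _ => e1 ω, ex_comm]
  have key : ∀ ω1, P.p ω1 ≠ 0 → (P.ex fun ω => P.ex fun ω2 =>
      ind (f ω1 = f ω) * ind (g ω2 = g ω) / (c ω * e ω)) ≤ 1 := by
    intro ω1 h1
    rw [ex_comm]
    have he1 : 0 < e ω1 := P.pv_pos h h1
    have e2 : P.ex (fun ω2 => ind (h ω2 = h ω1) / e ω1) = 1 := by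
      rw [ex_div]
      exact div_self he1.ne'
    rw [← e2]
    refine P.ex_mono fun ω2 h2 => ?_
    set c0 := P.pr fun ω' => (f ω', g ω') = (f ω1, g ω2) with hc0
    have e3 : P.ex (fun ω => ind (f ω1 = f ω) * ind (g ω2 = g ω) / (c ω * e ω)) =
        P.ex (fun ω => ind ((f ω, g ω) = (f ω1, g ω2)) * (ind (h ω2 = h ω1) / (c0 * e ω1))) := by
      refine P.ex_congr fun ω h0 => ?_
      by_cases hh : (f ω, g ω) = (f ω1, g ω2)
      · have h3 : f ω = f ω1 := (Prod.ext_iff.mp hh).1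
        have h4 : g ω = g ω2 := (Prod.ext_iff.mp hh).2
        have h5 : h ω = h ω1 := hf _ _ h0 h1 h3
        have h6 : h ω = h ω2 := hg _ _ h0 h2 h4
        rw [ind_pos h3.symm, ind_pos h4.symm, ind_pos hh, ind_pos (h6.symm.trans h5)]
        simp only [hc, he, hc0, pv, h3, h4, h5, one_mul]
      · rw [ind_neg hh, zero_mul, ← ind_and, ind_neg, zero_div]
        rintro ⟨h3, h4⟩
        exact hh (Prod.ext h3.symm h4.symm)
    rw [e3, ex_mul_const]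
    change c0 * _ ≤ _
    by_cases h0 : c0 = 0
    · rw [h0, zero_mul]
      exact div_nonneg (ind_nonneg _) he1.le
    · rw [mul_div_assoc', mul_div_mul_left _ _ h0]
  exact P.ex_le_const key

theorem ex_log_ratio (f : Ω → S) (g : Ω → T) (h : Ω → U) :
    P.ex (fun ω => log (P.pv f ω * P.pv g ω / (P.pv (fun ω => (f ω, g ω)) ω * P.pv h ω))) =
      P.ent (fun ω => (f ω, g ω)) + P.ent h - P.ent f - P.ent g := by
  simp only [ent, ← ex_add, ← ex_sub]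
  refine P.ex_congr fun ω h0 => ?_
  rw [log_div (mul_pos (P.pv_pos _ h0) (P.pv_pos _ h0)).ne'
    (mul_pos (P.pv_pos _ h0) (P.pv_pos _ h0)).ne',
    log_mul (P.pv_pos _ h0).ne' (P.pv_pos _ h0).ne',
    log_mul (P.pv_pos _ h0).ne' (P.pv_pos _ h0).ne']
  ring

/-- Submodularity of entropy. -/
theorem submod' (f : Ω → S) (g : Ω → T) (h : Ω → U) (k : Ω → V)
    (hf : ∀ ω ω', P.p ω ≠ 0 → P.p ω' ≠ 0 → f ω = f ω' → h ω = h ω')
    (hg : ∀ ω ω', P.p ω ≠ 0 → P.p ω' ≠ 0 → g ω = g ω' → h ω = h ω')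
    (hk : ∀ ω ω', P.p ω ≠ 0 → P.p ω' ≠ 0 → f ω = f ω' → g ω = g ω' → k ω = k ω') :
    P.ent k + P.ent h ≤ P.ent f + P.ent g := by
  have h1 := P.gibbs (fun ω h0 => div_pos (mul_pos (P.pv_pos _ h0) (P.pv_pos _ h0))
    (mul_pos (P.pv_pos _ h0) (P.pv_pos _ h0))) (P.ratio_le_one f g h hf hg)
  rw [ex_log_ratio] at h1
  have h2 : P.ent k ≤ P.ent (fun ω => (f ω, g ω)) :=
    P.ent_mono' fun ω ω' h1 h2 h3 => hk ω ω' h1 h2 (Prod.ext_iff.mp h3).1 (Prod.ext_iff.mp h3).2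
  linarith

theorem submod (f : Ω → S) (g : Ω → T) (h : Ω → U) (k : Ω → V)
    (hf : ∀ ω ω', f ω = f ω' → h ω = h ω') (hg : ∀ ω ω', g ω = g ω' → h ω = h ω')
    (hk : ∀ ω ω', f ω = f ω' → g ω = g ω' → k ω = k ω') :
    P.ent k + P.ent h ≤ P.ent f + P.ent g :=
  P.submod' f g h k (fun ω ω' _ _ => hf ω ω') (fun ω ω' _ _ => hg ω ω')
    (fun ω ω' _ _ => hk ω ω')

theorem subadd' (f : Ω → S) (g : Ω → T) (k : Ω → V)
    (hk : ∀ ω ω', P.p ω ≠ 0 → P.p ω' ≠ 0 → f ω = f ω' → g ω = g ω' → k ω = k ω') :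
    P.ent k ≤ P.ent f + P.ent g := by
  have := P.submod' f g (fun _ => ()) k (fun _ _ _ _ _ => rfl) (fun _ _ _ _ _ => rfl) hk
  rwa [P.ent_const (f := fun _ => ()) fun _ _ _ _ => rfl, add_zero] at this

theorem subadd (f : Ω → S) (g : Ω → T) (k : Ω → V)
    (hk : ∀ ω ω', f ω = f ω' → g ω = g ω' → k ω = k ω') : P.ent k ≤ P.ent f + P.ent g :=
  P.subadd' f g k fun ω ω' _ _ => hk ω ω'

/-- The equality case of subadditivity. -/
theorem pv_mul_of_ent (f : Ω → S) (g : Ω → T)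
    (h : P.ent f + P.ent g ≤ P.ent fun ω => (f ω, g ω)) (ω : Ω) (hω : P.p ω ≠ 0) :
    P.pv (fun ω => (f ω, g ω)) ω = P.pv f ω * P.pv g ω := by
  have h1 := P.gibbs_eq (fun ω h0 => div_pos (mul_pos (P.pv_pos _ h0) (P.pv_pos _ h0))
    (mul_pos (P.pv_pos _ h0) (P.pv_pos _ h0)))
    (P.ratio_le_one f g (fun _ => ()) (fun _ _ _ _ _ => rfl) (fun _ _ _ _ _ => rfl))
    (by
      rw [ex_log_ratio, P.ent_const (f := fun _ => ()) fun _ _ _ _ => rfl]
      linarith) ω hω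
  have h2 : P.pv (fun _ => ()) ω = 1 := P.pr_true fun _ _ => rfl
  rw [h2, mul_one, div_eq_one_iff_eq (P.pv_pos _ hω).ne'] at h1
  exact h1.symm

/-- A variable with few values on each fibre. -/
theorem ent_le_add_log (f : Ω → S) (g : Ω → T) (N : ℝ) (A : T → Finset S)
    (hA : ∀ ω, P.p ω ≠ 0 → f ω ∈ A (g ω)) (hN : ∀ ω, P.p ω ≠ 0 → ((A (g ω)).card : ℝ) ≤ N) :
    P.ent f ≤ P.ent g + log N := by
  classical
  have hpos : 0 < N := by
    obtain ⟨ω, h0⟩ := P.exists_supp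
    exact lt_of_lt_of_le (by exact_mod_cast card_pos.mpr ⟨_, hA ω h0⟩) (hN ω h0)
  have h1 : P.ent f ≤ P.ent fun ω => (f ω, g ω) :=
    P.ent_mono fun _ _ h => (Prod.ext_iff.mp h).1
  refine h1.trans ?_
  set c : Ω → ℝ := P.pv (fun ω => (f ω, g ω)) with hc
  set e : Ω → ℝ := P.pv g with he
  have h2 : P.ex (fun ω => e ω / (c ω * N)) ≤ 1 := by
    have e1 : ∀ ω, e ω / (c ω * N) = P.ex fun ω1 => ind (g ω1 = g ω) / (c ω * N) := by
      intro ω; simp only [ex_div, he, pr, pv]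
    rw [P.ex_congr fun ω _ => e1 ω, ex_comm]
    refine P.ex_le_const fun ω1 h1 => ?_
    have e2 : P.ex (fun ω => ind (g ω1 = g ω) / (c ω * N)) =
        P.ex (fun ω => ∑ a ∈ A (g ω1), ind ((f ω, g ω) = (a, g ω1)) *
          ((P.pr fun ω' => (f ω', g ω') = (a, g ω1)) * N)⁻¹) := by
      refine P.ex_congr fun ω h0 => ?_
      by_cases hg : g ω1 = g ω
      · rw [sum_eq_single (f ω), ind_pos hg, ind_pos (by rw [hg]), hg, div_eq_mul_inv]
        · rfl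
        · intro b _ hb
          rw [ind_neg, zero_mul]
          exact fun h => hb (Prod.ext_iff.mp h).1.symm
        · intro h; exact absurd (hg ▸ hA ω h0) h
      · rw [ind_neg hg, zero_div]
        refine (sum_eq_zero fun a _ => ?_).symm
        rw [ind_neg, zero_mul]
        exact fun h => hg (Prod.ext_iff.mp h).2.symm
    rw [e2, ex_sum]
    calc _ ≤ ∑ _a ∈ A (g ω1), N⁻¹ := by
          refine sum_le_sum fun a _ => ?_
          rw [ex_mul_const]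
          change P.pr _ * _ ≤ _
          by_cases h0 : (P.pr fun ω' => (f ω', g ω') = (a, g ω1)) = 0
          · rw [h0, zero_mul]; positivity
          · rw [mul_inv, ← mul_assoc, mul_inv_cancel₀ h0, one_mul]
      _ ≤ 1 := by
          rw [sum_const, nsmul_eq_mul, ← div_eq_mul_inv, div_le_one hpos]
          exact hN ω1 h1
  have h3 := P.gibbs (fun ω h0 => div_pos (P.pv_pos _ h0) (mul_pos (P.pv_pos _ h0) hpos)) h2
  have h4 : P.ex (fun ω => log (e ω / (c ω * N))) =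
      P.ent (fun ω => (f ω, g ω)) - P.ent g - log N := by
    rw [← P.ex_const (log N)]
    simp only [ent, ← ex_sub]
    refine P.ex_congr fun ω h0 => ?_
    rw [log_div (P.pv_pos _ h0).ne' (mul_pos (P.pv_pos _ h0) hpos).ne',
      log_mul (P.pv_pos _ h0).ne' hpos.ne']
    ring
  linarith

theorem ent_le_log (f : Ω → S) (A : Finset S) (hA : ∀ ω, P.p ω ≠ 0 → f ω ∈ A) :
    P.ent f ≤ log A.card := by
  have := P.ent_le_add_log f (fun _ => ()) A.card (fun _ => A) hA fun _ _ => le_rfl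
  rwa [P.ent_const (f := fun _ => ()) fun _ _ _ _ => rfl, zero_add] at this

theorem exists_pv_ge (f : Ω → S) : ∃ ω, P.p ω ≠ 0 ∧ exp (- P.ent f) ≤ P.pv f ω := by
  obtain ⟨ω, h0, h1⟩ := P.exists_le_ex fun ω => - log (P.pv f ω)
  refine ⟨ω, h0, ?_⟩
  rw [← exp_log (P.pv_pos f h0), exp_le_exp, ent]
  linarith

end FP

end Pool.Agent.Lib.PFR
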