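import Pool.Agent.Lib.PFR.Basic

/-!
Push-forwards, mixtures, products, conditioning and independence on finite probability spaces.
-/

set_option autoImplicit false

open Finset Real

namespace Pool.Agent.Lib.PFR

namespace FP

variable {Ω Ω' Ω'' S T U V : Type*} [Fintype Ω] [Fintype Ω'] [Fintype Ω'']

theorem sum_pr_mul (P : FP Ω) (φ : Ω → Ω') (F : Ω' → ℝ) :
    ∑ y, (P.pr fun ω => φ ω = y) * F y = P.ex fun ω => F (φ ω) := by
  simp only [pr, ← ex_mul_const, ← ex_sum, sum_ind_eq]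

/-- The law of a random variable. -/
noncomputable def map (P : FP Ω) (φ : Ω → Ω') : FP Ω' where
  p y := P.pr fun ω => φ ω = y
  nonneg _ := P.pr_nonneg _
  sum_one := by
    have := P.sum_pr_mul φ fun _ => 1
    simpa only [mul_one, ex_const] using this

theorem ex_map (P : FP Ω) (φ : Ω → Ω') (F : Ω' → ℝ) :
    (P.map φ).ex F = P.ex fun ω => F (φ ω) := P.sum_pr_mul φ F

theorem pr_map (P : FP Ω) (φ : Ω → Ω') (E : Ω' → Prop) :
    (P.map φ).pr E = P.pr fun ω => E (φ ω) := P.ex_map φ _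

theorem pv_map (P : FP Ω) (φ : Ω → Ω') (f : Ω' → S) (ω : Ω) :
    (P.map φ).pv f (φ ω) = P.pv (fun ω => f (φ ω)) ω := P.pr_map φ _

theorem ent_map (P : FP Ω) (φ : Ω → Ω') (f : Ω' → S) :
    (P.map φ).ent f = P.ent fun ω => f (φ ω) := by
  simp only [ent, ex_map, pv_map]

theorem map_map (P : FP Ω) (φ : Ω → Ω') (ψ : Ω' → Ω'') :
    (P.map φ).map ψ = P.map fun ω => ψ (φ ω) := ext_ex fun F => by simp only [ex_map]

theorem map_id (P : FP Ω) : P.map (fun ω => ω) = P := ext_ex fun F => by simp only [ex_map]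

theorem map_congr (P : FP Ω) {φ ψ : Ω → Ω'} (h : ∀ ω, P.p ω ≠ 0 → φ ω = ψ ω) :
    P.map φ = P.map ψ := ext_ex fun F => by
  rw [ex_map, ex_map]
  exact P.ex_congr fun ω h0 => by rw [h ω h0]

theorem map_supp (P : FP Ω) (φ : Ω → Ω') {y : Ω'} (h : (P.map φ).p y ≠ 0) :
    ∃ ω, P.p ω ≠ 0 ∧ φ ω = y := P.exists_of_pr_ne h

theorem map_p_ne (P : FP Ω) (φ : Ω → Ω') {ω : Ω} (h : P.p ω ≠ 0) : (P.map φ).p (φ ω) ≠ 0 :=
  (P.pv_pos φ h).ne'

/-- Entropy of a law. -/
noncomputable def H (μ : FP Ω) : ℝ := μ.ent fun x => x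

theorem H_map (P : FP Ω) (φ : Ω → Ω') : H (P.map φ) = P.ent φ := P.ent_map φ _

theorem H_eq_sum (μ : FP Ω) : H μ = ∑ x, negMulLog (μ.p x) := by
  simp only [H, ent, ex, pv, pr_eq_self, negMulLog]
  exact sum_congr rfl fun _ _ => by ring

theorem H_nonneg (μ : FP Ω) : 0 ≤ H μ := μ.ent_nonneg _

/-- A mixture, with the mixing variable retained. -/
def mix (w : FP Ω) (K : Ω → FP Ω') : FP (Ω × Ω') where
  p z := w.p z.1 * (K z.1).p z.2
  nonneg z := mul_nonneg (w.nonneg _) ((K _).nonneg _)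
  sum_one := by
    rw [Fintype.sum_prod_type]
    simp only [← mul_sum, sum_one, mul_one]

theorem ex_mix (w : FP Ω) (K : Ω → FP Ω') (F : Ω × Ω' → ℝ) :
    (w.mix K).ex F = w.ex fun s => (K s).ex fun ω => F (s, ω) := by
  simp only [ex, mix, Fintype.sum_prod_type, mul_sum, mul_assoc]

theorem mix_supp {w : FP Ω} {K : Ω → FP Ω'} {z : Ω × Ω'} (h : (w.mix K).p z ≠ 0) :
    w.p z.1 ≠ 0 ∧ (K z.1).p z.2 ≠ 0 := mul_ne_zero_iff.mp h

theorem ent_mix (w : FP Ω) (K : Ω → FP Ω') (F : Ω × Ω' → S) :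
    (w.mix K).ent (fun z => (z.1, F z)) =
      H w + w.ex fun s => (K s).ent fun ω => F (s, ω) := by
  have e1 : ∀ s ω, (w.mix K).pv (fun z => (z.1, F z)) (s, ω) =
      w.p s * (K s).pv (fun ω => F (s, ω)) ω := by
    intro s ω
    rw [pv, pr, ex_mix, pv, pr, ← w.ex_ind_eq s fun s' => (K s').ex fun ω' =>
      ind (F (s', ω') = F (s, ω))]
    refine w.ex_congr fun s' _ => ?_
    rw [← ex_const_mul]
    refine (K s').ex_congr fun ω' _ => ?_
    rw [← ind_and]
    exact ind_congr (by simp [Prod.ext_iff, eq_comm])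
  rw [ent, ex_mix, H, ent, ← ex_add]
  refine w.ex_congr fun s hs => ?_
  rw [ent, pv, pr_eq_self, ← (K s).ex_const (- log (w.p s)), ← ex_add]
  refine (K s).ex_congr fun ω hω => ?_
  rw [e1, log_mul hs ((K s).pv_pos _ hω).ne']
  ring

/-- Concavity of entropy. -/
theorem ex_H_le (w : FP Ω) (K : Ω → FP Ω') (μ : FP Ω')
    (h : ∀ F, w.ex (fun s => (K s).ex F) = μ.ex F) : w.ex (fun s => H (K s)) ≤ H μ := by
  have h1 := ent_mix w K fun z => z.2
  have h2 : (w.mix K).map Prod.snd = μ := ext_ex fun F => by rw [ex_map, ex_mix]; exact h F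
  have h3 : (w.mix K).map Prod.fst = w := ext_ex fun F => by simp only [ex_map, ex_mix, ex_const]
  have h4 := (w.mix K).subadd Prod.fst Prod.snd (fun z => (z.1, z.2))
    fun _ _ h1 h2 => by rw [h1, h2]
  rw [← H_map _ Prod.fst, ← H_map _ Prod.snd, h2, h3, h1] at h4
  simp only [H] at h4 ⊢
  linarith

/-- The product of two probability vectors. -/
def prod (P : FP Ω) (Q : FP Ω') : FP (Ω × Ω') := P.mix fun _ => Q

theorem ex_prod (P : FP Ω) (Q : FP Ω') (F : Ω × Ω' → ℝ) :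
    (P.prod Q).ex F = P.ex fun a => Q.ex fun b => F (a, b) := P.ex_mix _ F

theorem prod_supp {P : FP Ω} {Q : FP Ω'} {z : Ω × Ω'} (h : (P.prod Q).p z ≠ 0) :
    P.p z.1 ≠ 0 ∧ Q.p z.2 ≠ 0 := mix_supp h

theorem prod_p (P : FP Ω) (Q : FP Ω') (z : Ω × Ω') : (P.prod Q).p z = P.p z.1 * Q.p z.2 := rfl

theorem map_fst (P : FP Ω) (Q : FP Ω') (f : Ω → Ω'') :
    (P.prod Q).map (fun z => f z.1) = P.map f :=
  ext_ex fun F => by simp only [ex_map, ex_prod, ex_const]

theorem map_snd (P : FP Ω) (Q : FP Ω') (f : Ω' → Ω'') :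
    (P.prod Q).map (fun z => f z.2) = Q.map f :=
  ext_ex fun F => by simp only [ex_map, ex_prod, ex_const]

theorem ent_fst (P : FP Ω) (Q : FP Ω') (f : Ω → S) :
    (P.prod Q).ent (fun z => f z.1) = P.ent f := by
  rw [← ent_map _ (fun z : Ω × Ω' => z.1) f, map_fst P Q fun x => x, map_id]

theorem ent_snd (P : FP Ω) (Q : FP Ω') (f : Ω' → S) :
    (P.prod Q).ent (fun z => f z.2) = Q.ent f := by
  rw [← ent_map _ (fun z : Ω × Ω' => z.2) f, map_snd P Q fun x => x, map_id]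

open Classical in
/-- Conditioning on an event (no change if the event is null). -/
noncomputable def cond (P : FP Ω) (E : Ω → Prop) : FP Ω :=
  if h : P.pr E = 0 then P else
    { p := fun ω => P.p ω * ind (E ω) / P.pr E
      nonneg := fun ω => div_nonneg (mul_nonneg (P.nonneg ω) (ind_nonneg _)) (P.pr_nonneg E)
      sum_one := by rw [← sum_div]; exact div_self h }

theorem cond_p {P : FP Ω} {E : Ω → Prop} (h : P.pr E ≠ 0) (ω : Ω) :
    (P.cond E).p ω = P.p ω * ind (E ω) / P.pr E := by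
  rw [cond, dif_neg h]

theorem ex_cond {P : FP Ω} {E : Ω → Prop} (h : P.pr E ≠ 0) (F : Ω → ℝ) :
    (P.cond E).ex F = P.ex (fun ω => ind (E ω) * F ω) / P.pr E := by
  simp only [ex, cond_p h, sum_div]
  exact sum_congr rfl fun _ _ => by ring

theorem cond_supp {P : FP Ω} {E : Ω → Prop} (h : P.pr E ≠ 0) {ω : Ω} (h0 : (P.cond E).p ω ≠ 0) :
    P.p ω ≠ 0 ∧ E ω := by
  rw [cond_p h] at h0
  refine ⟨fun h1 => h0 (by simp [h1]), by_contra fun h1 => h0 (by simp [ind_neg h1])⟩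

/-- Conditioning on the value of `W` at `ω`. -/
noncomputable def fib (P : FP Ω) (W : Ω → S) (ω : Ω) : FP Ω := P.cond fun ω' => W ω' = W ω

theorem fib_supp {P : FP Ω} {W : Ω → S} {ω ω' : Ω} (h : P.p ω ≠ 0) (h0 : (P.fib W ω).p ω' ≠ 0) :
    P.p ω' ≠ 0 ∧ W ω' = W ω := cond_supp (P.pv_pos W h).ne' h0

theorem fib_congr (P : FP Ω) (W : Ω → S) {ω ω' : Ω} (h : W ω = W ω') :
    P.fib W ω = P.fib W ω' := by rw [fib, fib, h]

theorem tower (P : FP Ω) (W : Ω → S) (F : Ω → Ω → ℝ)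
    (hF : ∀ a b ω, W a = W b → F a ω = F b ω) :
    P.ex (fun a => (P.fib W a).ex (F a)) = P.ex fun ω => F ω ω := by
  have e1 : P.ex (fun a => (P.fib W a).ex (F a)) =
      P.ex fun a => P.ex fun ω => ind (W a = W ω) * (F ω ω / P.pv W ω) := by
    refine P.ex_congr fun a ha => ?_
    rw [fib, ex_cond (P.pv_pos W ha).ne', ← ex_div]
    refine P.ex_congr fun ω _ => ?_
    by_cases h : W ω = W a
    · rw [ind_pos h, ind_pos h.symm, hF a ω ω h.symm, pv, h, mul_div_assoc]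
    · rw [ind_neg h, ind_neg (Ne.symm h), zero_mul, zero_mul, zero_div]
  rw [e1, ex_comm]
  refine P.ex_congr fun ω h0 => ?_
  rw [ex_mul_const]
  exact mul_div_cancel₀ _ (P.pv_pos W h0).ne'

theorem tower' (P : FP Ω) (W : Ω → S) (F : Ω → ℝ) :
    P.ex (fun a => (P.fib W a).ex F) = P.ex F := P.tower W (fun _ => F) fun _ _ _ _ => rfl

/-- The chain rule. -/
theorem ex_ent_fib (P : FP Ω) (W : Ω → S) (f : Ω → T) :
    P.ex (fun a => (P.fib W a).ent f) = P.ent (fun ω => (f ω, W ω)) - P.ent W := by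
  have := P.tower W (fun a ω => - log ((P.fib W a).pv f ω))
    fun a b ω h => by rw [P.fib_congr W h]
  simp only [ent]
  rw [this, ← ex_sub]
  refine P.ex_congr fun ω h0 => ?_
  have e1 : (P.fib W ω).pv f ω = P.pv (fun ω => (f ω, W ω)) ω / P.pv W ω := by
    rw [pv, pr, fib, ex_cond (P.pv_pos W h0).ne', pv, pv, pr]
    congr 1
    refine P.ex_congr fun ω' _ => ?_
    rw [← ind_and]
    exact ind_congr (by simp [Prod.ext_iff, and_comm])
  rw [e1, log_div (P.pv_pos _ h0).ne' (P.pv_pos _ h0).ne']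
  ring

/-- Independence of two random variables. -/
def Indep (P : FP Ω) (f : Ω → S) (g : Ω → T) : Prop :=
  ∀ (u : S → ℝ) (v : T → ℝ),
    P.ex (fun ω => u (f ω) * v (g ω)) = P.ex (fun ω => u (f ω)) * P.ex fun ω => v (g ω)

theorem Indep.symm {P : FP Ω} {f : Ω → S} {g : Ω → T} (h : P.Indep f g) : P.Indep g f :=
  fun u v => by rw [mul_comm, ← h v u]; exact P.ex_congr fun _ _ => mul_comm _ _

theorem Indep.comp {P : FP Ω} {f : Ω → S} {g : Ω → T} (h : P.Indep f g) (a : S → U) (b : T → V) :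
    P.Indep (fun ω => a (f ω)) fun ω => b (g ω) :=
  fun u v => h (fun s => u (a s)) fun t => v (b t)

theorem Indep.ent_pair {P : FP Ω} {f : Ω → S} {g : Ω → T} (h : P.Indep f g) :
    P.ent (fun ω => (f ω, g ω)) = P.ent f + P.ent g := by
  simp only [ent, ← ex_add]
  refine P.ex_congr fun ω h0 => ?_
  have : P.pv (fun ω => (f ω, g ω)) ω = P.pv f ω * P.pv g ω := by
    simp only [pv, pr]
    rw [← h (fun s => ind (s = f ω)) fun t => ind (t = g ω)]
    refine P.ex_congr fun ω' _ => ?_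
    rw [← ind_and]
    exact ind_congr Prod.ext_iff
  rw [this, log_mul (P.pv_pos _ h0).ne' (P.pv_pos _ h0).ne']
  ring

theorem Indep.map_pair {P : FP Ω} {f : Ω → Ω'} {g : Ω → Ω''} (h : P.Indep f g) :
    P.map (fun ω => (f ω, g ω)) = (P.map f).prod (P.map g) := by
  refine ext' fun z => ?_
  rw [prod_p]
  simp only [map, pr]
  rw [← h (fun s => ind (s = z.1)) fun t => ind (t = z.2)]
  refine P.ex_congr fun ω' _ => ?_
  rw [← ind_and]
  exact ind_congr Prod.ext_iff

theorem indep_prod (P : FP Ω) (Q : FP Ω') (f : Ω → S) (g : Ω' → T) :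
    (P.prod Q).Indep (fun z => f z.1) fun z => g z.2 := fun u v => by
  simp only [ex_prod, ex_const, ex_const_mul, ex_mul_const]

theorem Indep.of_map {P : FP Ω} {φ : Ω → Ω'} {f : Ω' → S} {g : Ω' → T}
    (h : (P.map φ).Indep f g) : P.Indep (fun ω => f (φ ω)) fun ω => g (φ ω) := fun u v => by
  simpa only [ex_map] using h u v

section pi

variable {ι : Type*} [Fintype ι] [DecidableEq ι]

/-- The product of a family of probability vectors. -/
def pi (P : ι → FP Ω) : FP (ι → Ω) where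
  p ω := ∏ i, (P i).p (ω i)
  nonneg ω := prod_nonneg fun i _ => (P i).nonneg _
  sum_one := by
    rw [← Fintype.piFinset_univ, ← prod_univ_sum]
    simp only [sum_one, prod_const_one]

theorem pi_supp {P : ι → FP Ω} {ω : ι → Ω} (h : (pi P).p ω ≠ 0) (i : ι) : (P i).p (ω i) ≠ 0 :=
  prod_ne_zero_iff.mp h i (mem_univ i)

theorem ex_pi_prod (P : ι → FP Ω) (u : ι → Ω → ℝ) :
    (pi P).ex (fun ω => ∏ i, u i (ω i)) = ∏ i, (P i).ex (u i) := by
  simp only [ex, pi, ← prod_mul_distrib]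
  rw [← Fintype.piFinset_univ, ← prod_univ_sum (fun _ => univ) fun i x => (P i).p x * u i x]

theorem ex_pi_eval (P : ι → FP Ω) (i : ι) (F : Ω → ℝ) :
    (pi P).ex (fun ω => F (ω i)) = (P i).ex F := by
  have := ex_pi_prod P fun j x => if j = i then F x else 1
  simp only [prod_ite_eq', mem_univ, if_true] at this
  rw [this, prod_eq_single i]
  · simp
  · intro b _ hb; simp [hb, ex_const]
  · simp

theorem map_pi_eval (P : ι → FP Ω) (i : ι) (f : Ω → Ω') :
    (pi P).map (fun ω => f (ω i)) = (P i).map f :=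
  ext_ex fun F => by rw [ex_map, ex_map, ex_pi_eval P i fun x => F (f x)]

theorem ent_pi_eval (P : ι → FP Ω) (i : ι) (f : Ω → S) :
    (pi P).ent (fun ω => f (ω i)) = (P i).ent f := by
  rw [← ent_map _ (fun ω : ι → Ω => ω i) f, map_pi_eval P i fun x => x, map_id]

theorem indep_pi (P : ι → FP Ω) (s : Finset ι) (f : (ι → Ω) → S) (g : (ι → Ω) → T)
    (hf : ∀ ω ω', (∀ i ∈ s, ω i = ω' i) → f ω = f ω')
    (hg : ∀ ω ω', (∀ i ∉ s, ω i = ω' i) → g ω = g ω') : (pi P).Indep f g := by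
  intro u v
  let e : (ι → Ω) × (ι → Ω) → (ι → Ω) × (ι → Ω) :=
    fun z => (s.piecewise z.1 z.2, s.piecewise z.2 z.1)
  have he : Function.Involutive e := by
    rintro ⟨a, b⟩
    simp only [e, Prod.mk.injEq]
    constructor <;> (funext i; by_cases h : i ∈ s <;> simp [h])
  have h1 : (pi P).ex (fun ω => u (f ω) * v (g ω)) =
      ((pi P).prod (pi P)).ex fun z => u (f z.1) * v (g z.1) := by
    simp only [ex_prod, ex_const]
  have h2 : (pi P).ex (fun ω => u (f ω)) * (pi P).ex (fun ω => v (g ω)) =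
      ((pi P).prod (pi P)).ex fun z => u (f z.1) * v (g z.2) := by
    simp only [ex_prod, ex_const_mul, ex_mul_const]
  rw [h1, h2, ex, ex, ← he.bijective.sum_comp]
  refine sum_congr rfl fun z _ => ?_
  congr 1
  · simp only [prod_p, pi, e, ← prod_mul_distrib]
    refine prod_congr rfl fun i _ => ?_
    by_cases h : i ∈ s
    · simp [h]
    · simp [h, mul_comm]
  · rw [hf _ z.1 fun i hi => by simp [e, hi], hg _ z.2 fun i hi => by simp [e, hi]]

omit [DecidableEq ι] in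
theorem ind_forall (E : ι → Prop) : ind (∀ i, E i) = ∏ i, ind (E i) := by
  by_cases h : ∀ i, E i
  · rw [ind_pos h, prod_eq_one fun i _ => ind_pos (h i)]
  · rw [ind_neg h]
    push Not at h
    obtain ⟨i, hi⟩ := h
    exact (prod_eq_zero (mem_univ i) (ind_neg hi)).symm

theorem fib_pi (P : ι → FP Ω) (Y : ι → Ω → S) {ω : ι → Ω} (h : (pi P).p ω ≠ 0) :
    (pi P).fib (fun ω i => Y i (ω i)) ω = pi fun i => (P i).fib (Y i) (ω i) := by
  refine ext' fun ω' => ?_
  rw [fib, cond_p ((pi P).pv_pos (fun ω i => Y i (ω i)) h).ne']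
  have e1 : ∀ a : ι → Ω, ind ((fun i => Y i (a i)) = fun i => Y i (ω i)) =
      ∏ i, ind (Y i (a i) = Y i (ω i)) := fun a => by
    rw [← ind_forall]; exact ind_congr funext_iff
  rw [pr]
  simp only [e1]
  rw [ex_pi_prod P fun i x => ind (Y i x = Y i (ω i))]
  simp only [pi, ← prod_mul_distrib, ← prod_div_distrib]
  refine prod_congr rfl fun i _ => ?_
  rw [fib, cond_p ((P i).pv_pos (Y i) (pi_supp h i)).ne', pr]

theorem map_pi_reindex {κ τ : Type*} [Fintype κ] [DecidableEq κ] [Fintype τ] [DecidableEq τ]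
    (e : ι × κ ≃ τ) (μ : τ → FP Ω) :
    (pi μ).map (fun ω i j => ω (e (i, j))) = pi fun i => pi fun j => μ (e (i, j)) := by
  refine ext' fun y => ?_
  have : (pi μ).pr (fun ω => (fun i j => ω (e (i, j))) = y) =
      (pi μ).pr fun ω => ω = fun t => y (e.symm t).1 (e.symm t).2 := by
    refine (pi μ).pr_congr fun ω _ => ⟨fun h => ?_, fun h => ?_⟩
    · rw [← h]; simp
    · rw [h]; simp
  change (pi μ).pr _ = _
  rw [this, pr_eq_self]
  simp only [pi]
  rw [← Fintype.prod_prod_type (fun z : ι × κ => (μ (e (z.1, z.2))).p (y z.1 z.2)),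
    ← e.prod_comp]
  simp

end pi

end FP

end Pool.Agent.Lib.PFR
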