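import Pool.Agent.Lib.PFR.Constr

-- merged part: Pool.Agent.Lib.PFR.Endgame
section
-- merged part: Pool.Agent.Lib.PFR.Ruzsa
section
/-!
Entropic Ruzsa calculus on a finite abelian group.
-/

set_option autoImplicit false

open Finset Real

namespace Pool.Agent.Lib.PFR

namespace FP

variable {Ω S G : Type*} [Fintype Ω] [AddCommGroup G] [Fintype G]

/-- A point mass. -/
noncomputable def dirac (x : Ω) : FP Ω where
  p y := ind (x = y)
  nonneg _ := ind_nonneg _
  sum_one := by simpa using sum_ind_eq x fun _ => 1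

theorem ex_dirac (x : Ω) (F : Ω → ℝ) : (dirac x).ex F = F x := sum_ind_eq x F

/-- Convolution. -/
noncomputable def conv (μ ν : FP G) : FP G := (μ.prod ν).map fun z => z.1 + z.2

theorem ex_conv (μ ν : FP G) (F : G → ℝ) :
    (conv μ ν).ex F = μ.ex fun a => ν.ex fun b => F (a + b) := by
  rw [conv, ex_map, ex_prod]

noncomputable instance : CommMonoid (FP G) where
  mul := conv
  one := dirac 0
  mul_assoc a b c := ext_ex fun F => by
    change (conv (conv a b) c).ex F = (conv a (conv b c)).ex F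
    simp only [ex_conv, add_assoc]
  one_mul a := ext_ex fun F => by
    change (conv (dirac 0) a).ex F = _
    simp only [ex_conv, ex_dirac, zero_add]
  mul_one a := ext_ex fun F => by
    change (conv a (dirac 0)).ex F = _
    simp only [ex_conv, ex_dirac, add_zero]
  mul_comm a b := ext_ex fun F => by
    change (conv a b).ex F = (conv b a).ex F
    simp only [ex_conv]
    rw [ex_comm]
    simp only [add_comm]

theorem mul_def (μ ν : FP G) : μ * ν = (μ.prod ν).map fun z => z.1 + z.2 := rfl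

theorem ex_mul (μ ν : FP G) (F : G → ℝ) :
    (μ * ν).ex F = μ.ex fun a => ν.ex fun b => F (a + b) := ex_conv μ ν F

theorem ex_one (F : G → ℝ) : (1 : FP G).ex F = F 0 := ex_dirac 0 F

theorem Indep.map_add {P : FP Ω} {X Y : Ω → G} (h : P.Indep X Y) :
    P.map (fun ω => X ω + Y ω) = P.map X * P.map Y := by
  rw [mul_def, ← h.map_pair, map_map]

theorem Indep.ent_add {P : FP Ω} {X Y : Ω → G} (h : P.Indep X Y) :
    P.ent (fun ω => X ω + Y ω) = H (P.map X * P.map Y) := by
  rw [← h.map_add, H_map]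

theorem map_mul_hom (μ ν : FP G) (φ : G → G) (hφ : ∀ a b, φ (a + b) = φ a + φ b) :
    (μ * ν).map φ = μ.map φ * ν.map φ := ext_ex fun F => by
  simp only [ex_map, ex_mul, hφ]

theorem map_prod_hom {ι : Type*} (s : Finset ι) (μ : ι → FP G) (φ : G → G)
    (hφ : ∀ a b, φ (a + b) = φ a + φ b) : (∏ i ∈ s, μ i).map φ = ∏ i ∈ s, (μ i).map φ := by
  classical
  induction s using Finset.induction_on with
  | empty =>
    have h0 : φ 0 = 0 := by simpa using hφ 0 0
    exact ext_ex fun F => by simp only [prod_empty, ex_map, ex_one, h0]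
  | insert a s ha ih => rw [prod_insert ha, prod_insert ha, map_mul_hom _ _ _ hφ, ih]

theorem map_pi_sum {ι : Type*} [Fintype ι] [DecidableEq ι] (P : ι → FP Ω) (X : ι → Ω → G)
    (s : Finset ι) :
    (pi P).map (fun ω => ∑ i ∈ s, X i (ω i)) = ∏ i ∈ s, (P i).map (X i) := by
  induction s using Finset.induction_on with
  | empty => exact ext_ex fun F => by simp only [sum_empty, prod_empty, ex_map, ex_one, ex_const]
  | insert a s ha ih =>
    simp only [sum_insert ha, prod_insert ha]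
    rw [Indep.map_add, ih, map_pi_eval]
    refine indep_pi P {a} _ _ (fun ω ω' h => by rw [h a (mem_singleton_self a)]) fun ω ω' h => ?_
    refine sum_congr rfl fun i hi => ?_
    rw [h i fun hia => ha (mem_singleton.mp hia ▸ hi)]

theorem ent_pi_sum {ι : Type*} [Fintype ι] [DecidableEq ι] (P : ι → FP Ω) (X : ι → Ω → G)
    (s : Finset ι) :
    (pi P).ent (fun ω => ∑ i ∈ s, X i (ω i)) = H (∏ i ∈ s, (P i).map (X i)) := by
  rw [← map_pi_sum, H_map]

/-- The law of the negative. -/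
noncomputable def neg (μ : FP G) : FP G := μ.map fun x => - x

theorem ex_negl (μ : FP G) (F : G → ℝ) : μ.neg.ex F = μ.ex fun x => F (- x) := μ.ex_map _ F

theorem neg_neg (μ : FP G) : μ.neg.neg = μ := ext_ex fun F => by simp only [ex_negl, _root_.neg_neg]

theorem neg_mul (μ ν : FP G) : (μ * ν).neg = μ.neg * ν.neg := map_mul_hom _ _ _ neg_add

theorem H_neg (μ : FP G) : H μ.neg = H μ := by
  rw [neg, H_map]
  exact μ.ent_congr fun _ _ => neg_inj

theorem H_mul (μ ν : FP G) : H (μ * ν) = (μ.prod ν).ent fun z => z.1 + z.2 := H_map _ _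

theorem H_le_mul (μ ν : FP G) : H μ ≤ H (μ * ν) := by
  have h1 := (indep_prod μ ν (fun x => x) fun x => x).ent_pair
  rw [ent_fst μ ν fun x => x, ent_snd μ ν fun x => x] at h1
  have h2 := (μ.prod ν).subadd (fun z => z.1 + z.2) (fun z => z.2) (fun z => (z.1, z.2))
    fun a b h1 h2 => Prod.ext (by rw [h2] at h1; exact add_right_cancel h1) h2
  rw [ent_snd μ ν fun x => x, h1, ← H_mul] at h2
  simp only [H] at h2 ⊢
  linarith

theorem H_le_mul' (μ ν : FP G) : H ν ≤ H (μ * ν) := mul_comm μ ν ▸ H_le_mul ν μ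

section triple

variable (a b c : FP G)

omit [AddCommGroup G] in
theorem t_ent : ((a.prod b).prod c).ent (fun z => z) = H a + H b + H c := by
  have h1 := (indep_prod (a.prod b) c (fun x => x) fun x => x).ent_pair
  have h2 := (indep_prod a b (fun x => x) fun x => x).ent_pair
  rw [ent_fst (a.prod b) c fun x => x, ent_snd (a.prod b) c fun x => x] at h1
  rw [ent_fst a b fun x => x, ent_snd a b fun x => x] at h2
  exact h1.trans (by rw [H, H, H, ← h2])

omit [AddCommGroup G] in
theorem t_ent_eq (F : (G × G) × G → G) (μ : FP G)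
    (h : ∀ u : G → ℝ, (a.ex fun x => b.ex fun y => c.ex fun z => u (F ((x, y), z))) = μ.ex u) :
    ((a.prod b).prod c).ent F = H μ := by
  rw [← H_map]
  congr 1
  exact ext_ex fun u => by simp only [ex_map, ex_prod, h]

/-- The inequality of Kaimanovich and Vershik. -/
theorem kv : H (a * b * c) + H b ≤ H (a * b) + H (b * c) := by
  set P := (a.prod b).prod c
  have h1 := P.submod (fun z => (z.1.1 + z.1.2, z.2)) (fun z => (z.1.1, z.1.2 + z.2))
    (fun z => z.1.1 + z.1.2 + z.2) (fun z => z)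
    (fun z w h => by simp only [Prod.mk.injEq] at h; rw [h.1, h.2])
    (fun z w h => by simp only [Prod.mk.injEq] at h; rw [add_assoc, add_assoc, h.1, h.2])
    (fun z w h h' => by
      simp only [Prod.mk.injEq] at h h'
      refine Prod.ext (Prod.ext h'.1 ?_) h.2
      have := h.1
      rw [h'.1] at this
      exact add_left_cancel this)
  have h2 := P.subadd (fun z => z.1.1 + z.1.2) (fun z => z.2) (fun z => (z.1.1 + z.1.2, z.2))
    fun _ _ h h' => by rw [h, h']
  have h3 := P.subadd (fun z => z.1.1) (fun z => z.1.2 + z.2) (fun z => (z.1.1, z.1.2 + z.2))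
    fun _ _ h h' => by rw [h, h']
  rw [t_ent, t_ent_eq a b c _ (a * b * c) fun u => by simp only [ex_mul]] at h1
  rw [t_ent_eq a b c _ (a * b) fun u => by simp only [ex_mul, ex_const],
    t_ent_eq a b c _ c fun u => by simp only [ex_const]] at h2
  rw [t_ent_eq a b c _ a fun u => by simp only [ex_const],
    t_ent_eq a b c _ (b * c) fun u => by simp only [ex_mul, ex_const]] at h3
  linarith

/-- The Ruzsa triangle inequality. -/
theorem tri : H (a * c) + H b ≤ H (a * b) + H (b.neg * c) := by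
  set P := (a.prod b).prod c
  have h1 := P.submod (fun z => (z.1.1 + z.1.2, - z.1.2 + z.2)) (fun z => (z.1.1, z.2))
    (fun z => z.1.1 + z.2) (fun z => z)
    (fun z w h => by
      simp only [Prod.mk.injEq] at h
      have : z.1.1 + z.1.2 + (- z.1.2 + z.2) = w.1.1 + w.1.2 + (- w.1.2 + w.2) := by
        rw [h.1, h.2]
      simpa [add_assoc] using this)
    (fun z w h => by simp only [Prod.mk.injEq] at h; rw [h.1, h.2])
    (fun z w h h' => by
      simp only [Prod.mk.injEq] at h h'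
      refine Prod.ext (Prod.ext h'.1 ?_) h'.2
      have := h.1
      rw [h'.1] at this
      exact add_left_cancel this)
  have h2 := P.subadd (fun z => z.1.1 + z.1.2) (fun z => - z.1.2 + z.2)
    (fun z => (z.1.1 + z.1.2, - z.1.2 + z.2)) fun _ _ h h' => by rw [h, h']
  have h3 := P.subadd (fun z => z.1.1) (fun z => z.2) (fun z => (z.1.1, z.2))
    fun _ _ h h' => by rw [h, h']
  rw [t_ent, t_ent_eq a b c _ (a * c) fun u => by simp only [ex_mul, ex_const]] at h1
  rw [t_ent_eq a b c _ (a * b) fun u => by simp only [ex_mul, ex_const],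
    t_ent_eq a b c _ (b.neg * c) fun u => by simp only [ex_mul, ex_negl, ex_const]] at h2
  rw [t_ent_eq a b c _ a fun u => by simp only [ex_const],
    t_ent_eq a b c _ c fun u => by simp only [ex_const]] at h3
  linarith

end triple

theorem smul_step (a b : FP G) (n : ℕ) :
    H (a * b.map fun x => (n + 1) • x) + H a ≤
      H (a * b * a.neg) + H (a * b.map fun x => n • x) := by
  set P := (a.prod b).prod a
  have h1 := P.submod (fun z => (z.1.1 + z.1.2 + - z.2, z.2 + n • z.1.2)) (fun z => z.1)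
    (fun z => z.1.1 + (n + 1) • z.1.2) (fun z => z)
    (fun z w h => by
      simp only [Prod.mk.injEq] at h
      have e : ∀ z : (G × G) × G, z.1.1 + (n + 1) • z.1.2 =
          z.1.1 + z.1.2 + - z.2 + (z.2 + n • z.1.2) := fun z => by rw [succ_nsmul]; abel
      rw [e, e, h.1, h.2])
    (fun z w h => by rw [h])
    (fun z w h h' => by
      simp only [Prod.mk.injEq] at h
      refine Prod.ext h' ?_
      have := h.2
      rw [h'] at this
      exact add_right_cancel this)
  have h2 := P.subadd (fun z => z.1.1 + z.1.2 + - z.2) (fun z => z.2 + n • z.1.2)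
    (fun z => (z.1.1 + z.1.2 + - z.2, z.2 + n • z.1.2)) fun _ _ h h' => by rw [h, h']
  have h3 := P.subadd (fun z => z.1.1) (fun z => z.1.2) (fun z => z.1)
    fun _ _ h h' => Prod.ext h h'
  rw [t_ent, t_ent_eq a b a _ (a * b.map fun x => (n + 1) • x) fun u => by
    simp only [ex_mul, ex_const, ex_map]] at h1
  rw [t_ent_eq a b a _ (a * b * a.neg) fun u => by simp only [ex_mul, ex_negl],
    t_ent_eq a b a _ (a * b.map fun x => n • x) fun u => by
      simp only [ex_mul, ex_map, ex_const]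
      exact ex_comm _ _ _] at h2
  rw [t_ent_eq a b a _ a fun u => by simp only [ex_const],
    t_ent_eq a b a _ b fun u => by simp only [ex_const]] at h3
  have h4 := H_le_mul' a b
  linarith

theorem kv_prod {ι : Type*} (s : Finset ι) (μ : FP G) (ν : ι → FP G) :
    H (μ * ∏ i ∈ s, ν i) - H μ ≤ ∑ i ∈ s, (H (μ * ν i) - H μ) := by
  classical
  induction s using Finset.induction_on with
  | empty => simp
  | insert a s ha ih =>
    rw [prod_insert ha, sum_insert ha]
    have := kv (ν a) μ (∏ i ∈ s, ν i)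
    rw [mul_comm (ν a) μ, mul_assoc] at this
    linarith

theorem H_le_prod {ι : Type*} (s : Finset ι) (ν : ι → FP G) {a : ι} (ha : a ∈ s) :
    H (ν a) ≤ H (∏ i ∈ s, ν i) := by
  classical
  rw [← mul_prod_erase s ν ha]
  exact H_le_mul _ _

/-- The entropic Ruzsa distance. -/
noncomputable def rd (μ ν : FP G) : ℝ := H (μ * ν.neg) - H μ / 2 - H ν / 2

theorem rd_symm (μ ν : FP G) : rd μ ν = rd ν μ := by
  rw [rd, rd, ← H_neg (μ * ν.neg), neg_mul, neg_neg, mul_comm]
  ring

theorem rd_tri (a b c : FP G) : rd a c ≤ rd a b + rd b c := by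
  have := tri a b.neg c.neg
  rw [neg_neg, H_neg] at this
  simp only [rd]
  linarith only [this]

theorem sub_le_rd (μ ν : FP G) : H μ - H ν ≤ 2 * rd μ ν := by
  have := H_le_mul μ ν.neg
  rw [rd]
  linarith only [this]

theorem rd_nonneg (μ ν : FP G) : 0 ≤ rd μ ν := by
  have h1 := sub_le_rd μ ν
  have h2 := sub_le_rd ν μ
  rw [rd_symm] at h2
  linarith

theorem ex_rd_fib_le (μ : FP G) (P : FP Ω) (X : Ω → G) (W : Ω → S) :
    P.ex (fun ω => rd μ ((P.fib W ω).map X)) ≤
      rd μ (P.map X) + (P.ent X + P.ent W - P.ent fun ω => (X ω, W ω)) / 2 := by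
  simp only [rd, ex_sub, ex_div, ex_const, H_map]
  rw [ex_ent_fib]
  have := ex_H_le P (fun ω => μ * ((P.fib W ω).map X).neg) (μ * (P.map X).neg) fun F => by
    simp only [ex_mul, ex_negl, ex_map]
    rw [ex_comm]
    exact μ.ex_congr fun a _ => P.tower' W _
  linarith only [this]

end FP

end Pool.Agent.Lib.PFR
end

-- merged part: Pool.Agent.Lib.PFR.BSG
section
/-!
The entropic Balog-Szemeredi-Gowers lemma, with an auxiliary conditioning variable.
-/

set_option autoImplicit false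

open Finset Real

namespace Pool.Agent.Lib.PFR

namespace FP

variable {Ω S G : Type*} [Fintype Ω] [Fintype S] [AddCommGroup G] [Fintype G]

theorem bsg (P : FP Ω) (A B : Ω → G) (W : Ω → S) :
    P.ex (fun ω => H ((P.fib (fun ω => (A ω + B ω, W ω)) ω).map B *
        (P.fib (fun ω => (A ω + B ω, W ω)) ω).map B) -
        H ((P.fib (fun ω => (A ω + B ω, W ω)) ω).map B)) ≤
      2 * (P.ent (fun ω => (A ω, W ω)) + P.ent fun ω => (B ω, W ω)) -
        3 * P.ent (fun ω => (A ω, B ω, W ω)) + 2 * P.ent (fun ω => (A ω + B ω, W ω)) -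
        3 * P.ent W := by
  set V : Ω → G × S := fun ω => (A ω + B ω, W ω) with hV
  set K : G × S → FP (Ω × Ω) :=
    fun s => (P.cond fun ω => V ω = s).prod (P.cond fun ω => V ω = s) with hK
  set Q := (P.map V).mix K with hQ
  have hKV : ∀ ω, K (V ω) = (P.fib V ω).prod (P.fib V ω) := fun _ => rfl
  have hs : ∀ z, Q.p z ≠ 0 → (A z.2.1 + B z.2.1 = z.1.1 ∧ W z.2.1 = z.1.2) ∧
      (A z.2.2 + B z.2.2 = z.1.1 ∧ W z.2.2 = z.1.2) := by
    intro z hz
    obtain ⟨h1, h2⟩ := mix_supp hz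
    obtain ⟨h3, h4⟩ := prod_supp h2
    exact ⟨Prod.ext_iff.mp (cond_supp h1 h3).2, Prod.ext_iff.mp (cond_supp h1 h4).2⟩
  have m1 : Q.map (fun z => z.2.1) = P := ext_ex fun F => by
    simp only [hQ, ex_map, ex_mix, hKV, ex_prod, ex_const]
    exact P.tower' V F
  have m2 : Q.map (fun z => z.2.2) = P := ext_ex fun F => by
    simp only [hQ, ex_map, ex_mix, hKV, ex_prod, ex_const]
    exact P.tower' V F
  have n1 : ∀ {T : Type _} (f : Ω → T), Q.ent (fun z => f z.2.1) = P.ent f := fun f => by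
    rw [← m1, ent_map]
  have n1S : Q.ent (fun z => W z.2.1) = P.ent W := by rw [← m1, ent_map]
  have n2 : ∀ (f : Ω → G × S), Q.ent (fun z => f z.2.2) = P.ent f := fun f => by
    rw [← m2, ent_map]
  have eB : P.ex (fun ω => (P.fib V ω).ent B) = P.ent (fun ω => (A ω, B ω, W ω)) - P.ent V := by
    rw [ex_ent_fib]
    congr 1
    refine P.ent_congr fun ω ω' => ?_
    simp only [hV, Prod.mk.injEq]
    constructor
    · rintro ⟨h1, h2, h3⟩
      rw [h1] at h2
      exact ⟨add_right_cancel h2, h1, h3⟩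
    · rintro ⟨h1, h2, h3⟩
      exact ⟨h2, by rw [h1, h2], h3⟩
  have e1 : Q.ent (fun z => (z.1, (B z.2.1, B z.2.2))) =
      P.ent V + 2 * (P.ent (fun ω => (A ω, B ω, W ω)) - P.ent V) := by
    rw [hQ, ent_mix, H_map, ex_map, ← eB, ← ex_const_mul]
    congr 1
    refine P.ex_congr fun ω _ => ?_
    rw [hKV, (indep_prod _ _ B B).ent_pair, ent_fst, ent_snd]
    ring
  have e2 : Q.ent (fun z => (z.1, B z.2.1 + B z.2.2)) =
      P.ent V + P.ex fun ω => H ((P.fib V ω).map B * (P.fib V ω).map B) := by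
    rw [hQ, ent_mix, H_map, ex_map]
    congr 1
    refine P.ex_congr fun ω _ => ?_
    rw [hKV, (indep_prod _ _ B B).ent_add, map_fst, map_snd]
  have h1 := Q.submod' (fun z => (A z.2.1, B z.2.2, W z.2.1)) (fun z => (B z.2.1, A z.2.2, W z.2.1))
    (fun z => (A z.2.1 - B z.2.2, W z.2.1)) (fun z => (z.1, (B z.2.1, B z.2.2)))
    (fun z w _ _ h => by
      simp only [Prod.mk.injEq] at h ⊢
      exact ⟨by rw [h.1, h.2.1], h.2.2⟩)
    (fun z w hz hw h => by
      simp only [Prod.mk.injEq] at h ⊢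
      refine ⟨?_, h.2.2⟩
      have e : ∀ z, Q.p z ≠ 0 → A z.2.1 - B z.2.2 = A z.2.2 - B z.2.1 := fun z hz => by
        rw [sub_eq_sub_iff_add_eq_add, (hs z hz).1.1, (hs z hz).2.1]
      rw [e z hz, e w hw, h.1, h.2.1])
    (fun z w hz hw h h' => by
      simp only [Prod.mk.injEq] at h h' ⊢
      refine ⟨Prod.ext ?_ ?_, h'.1, h.2.1⟩
      · rw [← (hs z hz).1.1, ← (hs w hw).1.1, h.1, h'.1]
      · rw [← (hs z hz).1.2, ← (hs w hw).1.2, h.2.2])
  have hW12 : ∀ z, Q.p z ≠ 0 → W z.2.2 = W z.2.1 := fun z hz => by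
    rw [(hs z hz).1.2, (hs z hz).2.2]
  have h2 : ∀ X Y : Ω → G, Q.ent (fun z => (X z.2.1, Y z.2.2, W z.2.1)) + P.ent W ≤
      P.ent (fun ω => (X ω, W ω)) + P.ent (fun ω => (Y ω, W ω)) := by
    intro X Y
    have := Q.submod' (fun z => (X z.2.1, W z.2.1)) (fun z => (Y z.2.2, W z.2.2))
      (fun z => W z.2.1) (fun z => (X z.2.1, Y z.2.2, W z.2.1))
      (fun z w _ _ h => (Prod.ext_iff.mp h).2)
      (fun z w hz hw h => by
        rw [← hW12 z hz, ← hW12 w hw]; exact (Prod.ext_iff.mp h).2)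
      (fun z w _ _ h h' => by
        simp only [Prod.mk.injEq] at h h' ⊢
        exact ⟨h.1, h'.1, h.2⟩)
    rwa [n1S, n1 fun ω => (X ω, W ω), n2 fun ω => (Y ω, W ω)] at this
  have h3 := Q.submod' (fun z => V z.2.1) (fun z => (A z.2.1 - B z.2.2, W z.2.1))
    (fun z => W z.2.1) (fun z => (z.1, B z.2.1 + B z.2.2))
    (fun z w _ _ h => (Prod.ext_iff.mp h).2) (fun z w _ _ h => (Prod.ext_iff.mp h).2)
    (fun z w hz hw h h' => by
      simp only [hV, Prod.mk.injEq] at h h' ⊢
      refine ⟨Prod.ext ?_ ?_, ?_⟩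
      · rw [← (hs z hz).1.1, ← (hs w hw).1.1, h.1]
      · rw [← (hs z hz).1.2, ← (hs w hw).1.2, h.2]
      · have e : ∀ z : (G × S) × Ω × Ω, B z.2.1 + B z.2.2 =
            A z.2.1 + B z.2.1 - (A z.2.1 - B z.2.2) := fun z => by abel
        rw [e, e, h.1, h'.1])
  rw [n1S, n1 V, e2] at h3
  rw [e1] at h1
  have h4 := h2 A B
  have h5 := h2 B A
  simp only [ex_sub, H_map]
  rw [eB]
  linarith only [h1, h3, h4, h5]

end FP

end Pool.Agent.Lib.PFR
end

-- merged part: Pool.Agent.Lib.PFR.Multi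
section
/-!
The multidistance, crude entropy bounds for linear forms, and minimality.
-/

set_option autoImplicit false

open Finset Real

namespace Pool.Agent.Lib.PFR

namespace FP

variable {Ω S G ι : Type*} [Fintype Ω] [AddCommGroup G] [Fintype G] [Fintype ι] [DecidableEq ι]

/-- The mean entropy of a family of laws. -/
noncomputable def avg (μ : ι → FP G) : ℝ := (∑ i, H (μ i)) / Fintype.card ι

/-- The multidistance. -/
noncomputable def D (μ : ι → FP G) : ℝ := H (∏ i, μ i) - avg μ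

omit [DecidableEq ι] in
theorem H_le_avg (μ : ι → FP G) (a : ι) : H (μ a) ≤ avg μ + D μ := by
  have := H_le_prod univ μ (mem_univ a)
  rw [D]; linarith

omit [AddCommGroup G] [DecidableEq ι] in
theorem card_mul_avg (μ : ι → FP G) (hm : 3 ≤ Fintype.card ι) :
    Fintype.card ι * avg μ = ∑ i, H (μ i) := by
  have : (0 : ℝ) < Fintype.card ι := by exact_mod_cast (by omega : 0 < Fintype.card ι)
  rw [avg, mul_div_cancel₀ _ this.ne']

omit [DecidableEq ι] in
theorem D_nonneg (μ : ι → FP G) (hm : 3 ≤ Fintype.card ι) : 0 ≤ D μ := by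
  have h0 : (0 : ℝ) < Fintype.card ι := by exact_mod_cast (by omega : 0 < Fintype.card ι)
  have h1 : ∑ i, H (μ i) ≤ ∑ _i : ι, (avg μ + D μ) := sum_le_sum fun i _ => H_le_avg μ i
  rw [← card_mul_avg μ hm, sum_const, card_univ, nsmul_eq_mul] at h1
  (refine le_of_not_gt fun h_nl => ?_; linarith only [h_nl, h1, h0, mul_pos_of_neg_of_neg (Mathlib.Tactic.Linarith.sub_neg_of_lt h0) (Mathlib.Tactic.Linarith.sub_neg_of_lt h_nl)])

theorem avg_le_H (μ : ι → FP G) (hm : 3 ≤ Fintype.card ι) (a : ι) :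
    avg μ - Fintype.card ι * D μ ≤ H (μ a) := by
  have h1 : ∑ i ∈ univ.erase a, H (μ i) ≤ ∑ _i ∈ univ.erase a, (avg μ + D μ) :=
    sum_le_sum fun i _ => H_le_avg μ i
  have h2 := add_sum_erase univ (fun i => H (μ i)) (mem_univ a)
  rw [sum_const, card_erase_of_mem (mem_univ a), card_univ, nsmul_eq_mul,
    Nat.cast_sub (by omega), Nat.cast_one] at h1
  have h3 := card_mul_avg μ hm
  have h4 := D_nonneg μ hm
  linarith only [h1, h2, h3, h4]

theorem H_mul_ne (μ : ι → FP G) {a b : ι} (h : a ≠ b) : H (μ a * μ b) ≤ avg μ + D μ := by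
  have : H (μ a * μ b) ≤ H (∏ i, μ i) := by
    rw [← mul_prod_erase univ μ (mem_univ a),
      ← mul_prod_erase (univ.erase a) μ (mem_erase.mpr ⟨h.symm, mem_univ b⟩), ← mul_assoc]
    exact H_le_mul _ _
  rw [D]; linarith

theorem exists_third (hm : 3 ≤ Fintype.card ι) (a b : ι) : ∃ c, c ≠ a ∧ c ≠ b := by
  by_contra h
  push Not at h
  have : (univ : Finset ι) ⊆ {a, b} := fun c _ => by
    by_cases hc : c = a
    · simp [hc]
    · simp [h c hc]
  have h2 := card_le_card this
  have h3 : ({a, b} : Finset ι).card ≤ 2 := card_le_two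
  rw [card_univ] at h2
  omega

theorem H_mul_neg_le (μ : ι → FP G) (hm : 3 ≤ Fintype.card ι) (a b : ι) :
    H (μ a * (μ b).neg) ≤ avg μ + (Fintype.card ι + 2) * D μ := by
  obtain ⟨c, h1, h2⟩ := exists_third hm a b
  have h3 := tri (μ a) (μ c) (μ b).neg
  rw [← neg_mul, H_neg] at h3
  have := H_mul_ne μ h1.symm
  have := H_mul_ne μ h2
  have := avg_le_H μ hm c
  linarith

theorem H_mul_le (μ : ι → FP G) (hm : 3 ≤ Fintype.card ι) (a b : ι) :
    H (μ a * μ b) ≤ avg μ + (2 * Fintype.card ι + 3) * D μ := by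
  obtain ⟨c, -, h2⟩ := exists_third hm a b
  have h3 := tri (μ a) (μ c).neg (μ b)
  rw [neg_neg, H_neg] at h3
  have := H_mul_neg_le μ hm a c
  have := H_mul_ne μ h2
  have := avg_le_H μ hm c
  linarith

theorem H_mul_smul_le (μ : ι → FP G) (hm : 3 ≤ Fintype.card ι) (a b : ι) (n : ℕ) :
    H (μ a * (μ b).map fun x => n • x) - H (μ a) ≤ n * (8 * Fintype.card ι * D μ) := by
  induction n with
  | zero =>
    have : ((μ b).map fun x => (0 : ℕ) • x) = 1 :=
      ext_ex fun F => by simp only [ex_map, ex_one, zero_smul, ex_const]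
    rw [this, mul_one]; simp
  | succ n ih =>
    have h1 := smul_step (μ a) (μ b) n
    have h2 := kv (μ b) (μ a) (μ a).neg
    rw [mul_comm (μ b)] at h2
    have h3 := H_mul_le μ hm a b
    have h4 := H_mul_neg_le μ hm a a
    have h5 := avg_le_H μ hm a
    have h6 := D_nonneg μ hm
    have h7 : (3 : ℝ) ≤ Fintype.card ι := by exact_mod_cast hm
    push_cast
    linarith only [ih, h1, h2, h3, h4, h5, h6, h7, mul_nonneg_of_nonpos_of_nonpos (Mathlib.Tactic.Linarith.sub_nonpos_of_le (Mathlib.Tactic.Linarith.natCast_nonneg ℝ (Fintype.card ι))) (Mathlib.Tactic.Linarith.sub_nonpos_of_le h6), mul_nonneg_of_nonpos_of_nonpos (Mathlib.Tactic.Linarith.sub_nonpos_of_le h6) (Mathlib.Tactic.Linarith.sub_nonpos_of_le h7)]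

/-- The constant in the crude bounds. -/
noncomputable def Kc (ι : Type*) [Fintype ι] : ℝ := 1 + 8 * (Fintype.card ι : ℝ) ^ 5

omit [DecidableEq ι] in
theorem Kc_pos : 0 < Kc ι := by unfold Kc; positivity

theorem lin_le (μ : ι → FP G) (hm : 3 ≤ Fintype.card ι) {τ : Type*} (s : Finset τ) (b : τ → ι)
    (n : τ → ℕ) (hs : s.card ≤ Fintype.card ι ^ 2) (hn : ∀ t ∈ s, n t ≤ Fintype.card ι ^ 2)
    (a : ι) : H (μ a * ∏ t ∈ s, (μ (b t)).map fun x => n t • x) ≤ avg μ + Kc ι * D μ := by
  have h0 := D_nonneg μ hm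
  have h1 := kv_prod s (μ a) fun t => (μ (b t)).map fun x => n t • x
  have h2 : ∑ t ∈ s, (H (μ a * (μ (b t)).map fun x => n t • x) - H (μ a)) ≤
      ∑ _t ∈ s, (Fintype.card ι : ℝ) ^ 2 * (8 * Fintype.card ι * D μ) :=
    sum_le_sum fun t ht => (H_mul_smul_le μ hm a (b t) (n t)).trans
      (mul_le_mul_of_nonneg_right (by exact_mod_cast hn t ht) (by positivity))
  rw [sum_const, nsmul_eq_mul] at h2
  have h3 : (s.card : ℝ) * ((Fintype.card ι : ℝ) ^ 2 * (8 * Fintype.card ι * D μ)) ≤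
      (Fintype.card ι : ℝ) ^ 2 * ((Fintype.card ι : ℝ) ^ 2 * (8 * Fintype.card ι * D μ)) :=
    mul_le_mul_of_nonneg_right (by exact_mod_cast hs) (by positivity)
  have h4 := H_le_avg μ a
  rw [Kc]
  linarith only [h1, h2, h3, h4]

theorem lin_neg_le (μ : ι → FP G) (hm : 3 ≤ Fintype.card ι)
    (hG : ∀ x : G, Fintype.card ι • x = 0) {τ : Type*} (s : Finset τ) (b : τ → ι)
    (n : τ → ℕ) (hs : s.card ≤ Fintype.card ι ^ 2) (hn : ∀ t ∈ s, n t ≤ Fintype.card ι)
    (a : ι) :
    H (μ a * (∏ t ∈ s, (μ (b t)).map fun x => n t • x).neg) ≤ avg μ + Kc ι * D μ := by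
  have e : (∏ t ∈ s, (μ (b t)).map fun x => n t • x).neg =
      ∏ t ∈ s, (μ (b t)).map fun x => ((Fintype.card ι - 1) * n t) • x := by
    rw [neg, map_prod_hom _ _ _ neg_add]
    refine prod_congr rfl fun t _ => ?_
    rw [map_map]
    refine map_congr _ fun x _ => ?_
    rw [mul_smul, neg_eq_iff_add_eq_zero, ← succ_nsmul', Nat.sub_add_cancel (by omega), hG]
  rw [e]
  refine lin_le μ hm s b _ hs (fun t ht => ?_) a
  rw [sq]
  exact Nat.mul_le_mul (Nat.sub_le _ _) (hn t ht)

theorem prod_le (μ : ι → FP G) (hm : 3 ≤ Fintype.card ι) {τ : Type*} (s : Finset τ) (b : τ → ι)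
    (hs : s.card ≤ Fintype.card ι ^ 2) : H (∏ t ∈ s, μ (b t)) ≤ avg μ + Kc ι * D μ := by
  obtain ⟨a⟩ : Nonempty ι := Fintype.card_pos_iff.mp (by omega)
  have := lin_le μ hm s b (fun _ => 1) hs (fun _ _ => Nat.one_le_pow _ _ (by omega)) a
  simp only [one_smul, map_id] at this
  exact (H_le_mul' _ _).trans this

theorem rd_prod_le (μ : ι → FP G) (hm : 3 ≤ Fintype.card ι)
    (hG : ∀ x : G, Fintype.card ι • x = 0) {τ : Type*} (s : Finset τ) (b : τ → ι)
    (n : τ → ℕ) (hs : s.card ≤ Fintype.card ι ^ 2) (hn : ∀ t ∈ s, n t ≤ Fintype.card ι)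
    {t0 : τ} (h0 : t0 ∈ s) (h1 : n t0 = 1) (a : ι) :
    rd (μ a) (∏ t ∈ s, (μ (b t)).map fun x => n t • x) ≤ (Kc ι + Fintype.card ι) * D μ := by
  have h2 := lin_neg_le μ hm hG s b n hs hn a
  have h3 := H_le_prod s (fun t => (μ (b t)).map fun x => n t • x) h0
  simp only [h1, one_smul, map_id] at h3
  have h4 := avg_le_H μ hm a
  have h5 := avg_le_H μ hm (b t0)
  rw [rd]
  linarith only [h2, h3, h4, h5]

theorem rd_self_le (μ : ι → FP G) (hm : 3 ≤ Fintype.card ι) (a : ι) :
    rd (μ a) (μ a) ≤ (2 * Fintype.card ι + 2) * D μ := by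
  have h2 := H_mul_neg_le μ hm a a
  have h4 := avg_le_H μ hm a
  rw [rd]
  linarith only [h2, h4]

/-- Minimality of a family for the penalised multidistance. -/
def IsMin (η : ℝ) (μ : ι → FP G) : Prop :=
  ∀ ν : ι → FP G, D μ - η * ∑ i, rd (μ i) (ν i) ≤ D ν

omit [DecidableEq ι] in
theorem D_perm (μ : ι → FP G) (σ : ι ≃ ι) : D (fun i => μ (σ i)) = D μ := by
  simp only [D, avg]
  rw [σ.prod_comp μ, σ.sum_comp fun i => H (μ i)]

omit [DecidableEq ι] in
theorem IsMin.perm {η : ℝ} {μ : ι → FP G} (h : IsMin η μ) (σ : ι ≃ ι) (ν : ι → FP G) :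
    D μ - η * ∑ i, rd (μ (σ i)) (ν i) ≤ D ν := by
  have := h fun i => ν (σ.symm i)
  rw [D_perm, ← σ.sum_comp] at this
  simpa using this

theorem IsMin.cond {η : ℝ} {μ : ι → FP G} (h : IsMin η μ) (hη : 0 ≤ η) (σ : ι ≃ ι)
    (P : ι → FP Ω) (X : ι → Ω → G) (Y : ι → Ω → S) :
    D μ - η * ∑ i, (rd (μ (σ i)) ((P i).map (X i)) +
        ((P i).ent (X i) + (P i).ent (Y i) - (P i).ent fun ω => (X i ω, Y i ω)) / 2) ≤
      (pi P).ent (fun ω => (∑ i, X i (ω i), fun i => Y i (ω i))) -
        (pi P).ent (fun ω i => Y i (ω i)) -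
        (∑ i, (((P i).ent fun ω => (X i ω, Y i ω)) - (P i).ent (Y i))) / Fintype.card ι := by
  have h1 := (pi P).ex_mono (fun ω _ => h.perm σ fun i => ((P i).fib (Y i) (ω i)).map (X i))
  have e1 : (pi P).ex (fun ω => D fun i => ((P i).fib (Y i) (ω i)).map (X i)) =
      (pi P).ent (fun ω => (∑ i, X i (ω i), fun i => Y i (ω i))) -
        (pi P).ent (fun ω i => Y i (ω i)) -
        (∑ i, (((P i).ent fun ω => (X i ω, Y i ω)) - (P i).ent (Y i))) / Fintype.card ι := by
    simp only [D, avg, ex_sub, ex_div, ex_sum, H_map]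
    congr 1
    · rw [← ex_ent_fib]
      refine (pi P).ex_congr fun ω h0 => ?_
      rw [fib_pi P Y h0, ent_pi_sum]
    · congr 1
      refine sum_congr rfl fun i _ => ?_
      rw [← ex_ent_fib, ex_pi_eval P i fun x => ((P i).fib (Y i) x).ent (X i)]
  rw [e1, ex_sub, ex_const, ex_const_mul, ex_sum] at h1
  refine le_trans (sub_le_sub_left (mul_le_mul_of_nonneg_left (sum_le_sum fun i _ => ?_) hη) _) h1
  rw [ex_pi_eval P i fun x => rd (μ (σ i)) (((P i).fib (Y i) x).map (X i))]
  exact ex_rd_fib_le _ _ _ _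

end FP

end Pool.Agent.Lib.PFR
end

-- merged part: Pool.Agent.Lib.PFR.Mutual
section
/-!
The mutual information of the row sums and column sums of an array built from a minimiser.
-/

set_option autoImplicit false

open Finset Real

namespace Pool.Agent.Lib.PFR

namespace FP

variable {Ω Ω' S T U G ι : Type*} [Fintype Ω] [Fintype Ω'] [AddCommGroup G] [Fintype G]
  [Fintype ι] [DecidableEq ι]

theorem Indep.to_map {P : FP Ω} {φ : Ω → Ω'} {f : Ω' → S} {g : Ω' → T}
    (h : P.Indep (fun ω => f (φ ω)) fun ω => g (φ ω)) : (P.map φ).Indep f g := fun u v => by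
  simpa only [ex_map] using h u v

theorem ent_fun_le (P : FP Ω) (f : ι → Ω → S) :
    P.ent (fun ω j => f j ω) ≤ ∑ j, P.ent (f j) := by
  have key : ∀ s : Finset ι, P.ent (fun ω (j : s) => f j ω) ≤ ∑ j ∈ s, P.ent (f j) := by
    intro s
    induction s using Finset.induction_on with
    | empty =>
      rw [P.ent_const fun _ _ _ _ => funext fun j => absurd j.2 (notMem_empty _)]
      simp
    | insert a s ha ih =>
      rw [sum_insert ha]
      refine (P.subadd (f a) (fun ω (j : s) => f j ω) _ fun ω ω' h1 h2 => funext fun j => ?_).trans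
        (by linarith)
      rcases mem_insert.mp j.2 with h | h
      · rw [h, h1]
      · exact congrFun h2 ⟨j, h⟩
  exact (P.ent_mono fun ω ω' h => funext fun j => congrFun h ⟨j, mem_univ j⟩).trans (key univ)

theorem indep_cols (ν : ι → ι → FP Ω) (j : ι) (g : (ι → ι → Ω) → T)
    (hg : ∀ ω ω', (∀ i j', j' ≠ j → ω i j' = ω' i j') → g ω = g ω') :
    (pi fun i => pi (ν i)).Indep (fun ω i => ω i j) g := by
  have := map_pi_reindex (Equiv.refl (ι × ι)) fun t => ν t.1 t.2
  simp only [Equiv.refl_apply] at this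
  rw [← this]
  refine Indep.to_map (indep_pi _ (univ.filter fun t : ι × ι => t.2 = j) _ _ ?_ ?_)
  · intro ω ω' h
    exact funext fun i => h (i, j) (by simp)
  · intro ω ω' h
    exact hg _ _ fun i j' hj => h (i, j') (by simpa using hj)

/-- The constant in the mutual information bound. -/
noncomputable def Kd (ι : Type*) [Fintype ι] : ℝ :=
  Fintype.card ι * (Kc ι + 3 * Fintype.card ι + 2)

omit [DecidableEq ι] in
theorem Kd_nonneg : 0 ≤ Kd ι := by
  have := Kc_pos (ι := ι)
  unfold Kd; positivity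

theorem col_chain {η : ℝ} {μ : ι → FP G} (h : IsMin η μ) (hη : 0 ≤ η) (hm : 3 ≤ Fintype.card ι)
    (σ : ι → ι ≃ ι) (s : Finset ι) (hs : s.Nonempty) :
    s.card * (avg μ + D μ) - D μ - s.card * (η * (Kd ι * D μ)) ≤
      (pi fun i => pi fun j => μ (σ j i)).ent
          (fun ω => (fun j => if j ∈ s then ∑ i, ω i j else 0, fun i => ∑ j ∈ s, ω i j)) -
        (pi fun i => pi fun j => μ (σ j i)).ent (fun ω i => ∑ j ∈ s, ω i j) +
        (∑ i, H (∏ j ∈ s, μ (σ j i))) / Fintype.card ι := by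
  set P := pi fun i => pi fun j => μ (σ j i) with hP
  have hD := D_nonneg μ hm
  have hKd := Kd_nonneg (ι := ι)
  have hm0 : (0 : ℝ) < Fintype.card ι := by exact_mod_cast (by omega : 0 < Fintype.card ι)
  induction hs using Finset.Nonempty.cons_induction with
  | singleton j =>
    have h1 : P.ent (fun ω i => ∑ j ∈ {j}, ω i j) ≤ P.ent
        (fun ω => (fun j' => if j' ∈ ({j} : Finset ι) then ∑ i, ω i j' else 0,
          fun i => ∑ j ∈ {j}, ω i j)) := P.ent_mono fun _ _ h => (Prod.ext_iff.mp h).2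
    have h2 : (∑ i, H (∏ j ∈ {j}, μ (σ j i))) / Fintype.card ι = avg μ := by
      simp only [prod_singleton, avg]
      rw [(σ j).sum_comp fun i => H (μ i)]
    have h3 : 0 ≤ η * (Kd ι * D μ) := by positivity
    rw [h2, card_singleton]
    push_cast
    linarith only [h1, h3]
  | cons j s hj hs ih =>
    rw [cons_eq_insert]
    have h1 := h.cond hη (σ j) (fun i => pi fun j => μ (σ j i)) (fun _ x => x j)
      (fun _ x => ∑ j' ∈ insert j s, x j')
    have e1 : ∀ i, (pi fun j => μ (σ j i)).map (fun x => x j) = μ (σ j i) := fun i => by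
      rw [map_pi_eval (fun j => μ (σ j i)) j fun x => x, map_id]
    have e2 : ∀ i, (pi fun j => μ (σ j i)).ent (fun x => x j) = H (μ (σ j i)) := fun i =>
      ent_pi_eval (fun j => μ (σ j i)) j fun x => x
    have e3 : ∀ (i : ι) (t : Finset ι), (pi fun j => μ (σ j i)).ent (fun x => ∑ j' ∈ t, x j') =
        H (∏ j' ∈ t, μ (σ j' i)) := fun i t => by
      rw [ent_pi_sum (fun j => μ (σ j i)) (fun _ x => x) t]
      simp only [map_id]
    have e4 : ∀ i, (pi fun j => μ (σ j i)).ent (fun x => (x j, ∑ j' ∈ insert j s, x j')) =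
        H (μ (σ j i)) + H (∏ j' ∈ s, μ (σ j' i)) := fun i => by
      rw [← e2, ← e3, ← Indep.ent_pair]
      · refine ent_congr _ fun x y => ?_
        simp only [sum_insert hj, Prod.mk.injEq, and_congr_right_iff]
        intro hxy
        rw [hxy, add_right_inj]
      · refine indep_pi _ {j} _ _ (fun ω ω' h => h j (mem_singleton_self j)) fun ω ω' h => ?_
        exact sum_congr rfl fun j' hj' => h j' fun hh => hj (mem_singleton.mp hh ▸ hj')
    simp only [e1, e2, e3, e4] at h1
    rw [← hP] at h1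
    have h2 : ∑ i, (rd (μ (σ j i)) (μ (σ j i)) + (H (μ (σ j i)) +
        H (∏ j' ∈ insert j s, μ (σ j' i)) - (H (μ (σ j i)) + H (∏ j' ∈ s, μ (σ j' i)))) / 2) ≤
        Kd ι * D μ := by
      have : ∀ i, rd (μ (σ j i)) (μ (σ j i)) + (H (μ (σ j i)) +
          H (∏ j' ∈ insert j s, μ (σ j' i)) - (H (μ (σ j i)) + H (∏ j' ∈ s, μ (σ j' i)))) / 2 ≤
          (Kc ι + 3 * Fintype.card ι + 2) * D μ := by
        intro i
        have a1 := rd_self_le μ hm (σ j i)
        have a2 := prod_le μ hm (insert j s) (fun j' => σ j' i)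
          ((card_le_univ _).trans (Nat.le_self_pow two_ne_zero _))
        obtain ⟨j0, hj0⟩ := hs
        have a3 := H_le_prod s (fun j' => μ (σ j' i)) hj0
        have a4 := avg_le_H μ hm (σ j0 i)
        have a5 := Kc_pos (ι := ι)
        linarith only [a1, a2, a3, a4, hD, a5, mul_nonneg_of_nonpos_of_nonpos (Mathlib.Tactic.Linarith.sub_nonpos_of_le (Mathlib.Tactic.Linarith.natCast_nonneg ℝ (Fintype.card ι))) (Mathlib.Tactic.Linarith.sub_nonpos_of_le hD), mul_nonneg_of_nonpos_of_nonpos (Mathlib.Tactic.Linarith.sub_nonpos_of_le hD) (le_of_lt (Mathlib.Tactic.Linarith.sub_neg_of_lt a5))]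
      refine (sum_le_sum fun i _ => this i).trans (le_of_eq ?_)
      rw [sum_const, card_univ, nsmul_eq_mul, Kd, mul_assoc]
    have h3 := P.submod
      (fun ω => (fun j' => if j' ∈ insert j s then ∑ i, ω i j' else 0,
        fun i => ∑ j' ∈ insert j s, ω i j'))
      (fun ω => (fun i => ω i j, fun i => ∑ j' ∈ s, ω i j'))
      (fun ω => (∑ i, ω i j, fun i => ∑ j' ∈ insert j s, ω i j'))
      (fun ω => (fun i => ω i j,
        (fun j' => if j' ∈ s then ∑ i, ω i j' else 0, fun i => ∑ j' ∈ s, ω i j')))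
      (fun ω ω' h => by
        simp only [Prod.mk.injEq] at h ⊢
        refine ⟨?_, h.2⟩
        simpa using congrFun h.1 j)
      (fun ω ω' h => by
        simp only [Prod.mk.injEq] at h ⊢
        refine ⟨sum_congr rfl fun i _ => congrFun h.1 i, funext fun i => ?_⟩
        rw [sum_insert hj, sum_insert hj, congrFun h.1 i, congrFun h.2 i])
      (fun ω ω' h h' => by
        simp only [Prod.mk.injEq] at h h' ⊢
        refine ⟨h'.1, funext fun j' => ?_, h'.2⟩
        have := congrFun h.1 j'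
        by_cases hh : j' ∈ s
        · simpa [hh] using this
        · simp [hh])
    rw [(indep_cols (fun i j => μ (σ j i)) j _ fun ω ω' h => ?_).ent_pair,
      (indep_cols (fun i j => μ (σ j i)) j _ fun ω ω' h => ?_).ent_pair] at h3
    · have h4 : (∑ i, (H (μ (σ j i)) + H (∏ j' ∈ s, μ (σ j' i)) -
          H (∏ j' ∈ insert j s, μ (σ j' i)))) / Fintype.card ι =
          avg μ + (∑ i, H (∏ j' ∈ s, μ (σ j' i))) / Fintype.card ι -
            (∑ i, H (∏ j' ∈ insert j s, μ (σ j' i))) / Fintype.card ι := by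
        rw [sum_sub_distrib, sum_add_distrib, (σ j).sum_comp fun i => H (μ i), avg]
        ring
      rw [h4] at h1
      have h5 := mul_le_mul_of_nonneg_left h2 hη
      rw [card_insert_of_notMem hj]
      push_cast
      rw [← hP] at h3
      linarith only [ih, h1, h3, h5]
    · exact funext fun i => sum_congr rfl fun j' hj' => h i j' fun hh => hj (hh ▸ hj')
    · refine Prod.ext (funext fun j' => ?_)
        (funext fun i => sum_congr rfl fun j' hj' => h i j' fun hh => hj (hh ▸ hj'))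
      by_cases hh : j' ∈ s
      · simp only [hh, if_true]
        exact sum_congr rfl fun i _ => h i j' fun h' => hj (h' ▸ hh)
      · simp [hh]

theorem mi_bound {η : ℝ} {μ : ι → FP G} (h : IsMin η μ) (hη : 0 ≤ η) (hm : 3 ≤ Fintype.card ι)
    (hG : ∀ x : G, Fintype.card ι • x = 0) {τ : Type*} [Fintype τ] [DecidableEq τ]
    (e : ι × ι ≃ τ) (ν : τ → FP G) (σ : ι → ι ≃ ι) (hν : ∀ i j, ν (e (i, j)) = μ (σ j i))
    (A : (τ → G) → S) (B : (τ → G) → T)
    (hA : ∀ ω ω', (∀ i, ∑ j, ω (e (i, j)) = ∑ j, ω' (e (i, j))) → A ω = A ω')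
    (hB : ∀ ω ω', (∀ j, ∑ i, ω (e (i, j)) = ∑ i, ω' (e (i, j))) → B ω = B ω') :
    (pi ν).ent (fun ω => (A ω, ∑ t, ω t)) + (pi ν).ent (fun ω => (B ω, ∑ t, ω t)) -
      (pi ν).ent (fun ω => (A ω, B ω, ∑ t, ω t)) - (pi ν).ent (fun ω => ∑ t, ω t) ≤
      η * ((Fintype.card ι + 1) * Kd ι * D μ) := by
  set P := pi fun i => pi fun j => μ (σ j i) with hP
  have hD := D_nonneg μ hm
  have hm0 : (0 : ℝ) < Fintype.card ι := by exact_mod_cast (by omega : 0 < Fintype.card ι)
  have hne : (univ : Finset ι).Nonempty := card_pos.mp (by rw [card_univ]; omega)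
  have hmap : (pi ν).map (fun ω i j => ω (e (i, j))) = P := by
    rw [map_pi_reindex]; simp only [hν, hP]
  have hW : ∀ ω : τ → G, ∑ t, ω t = ∑ i, ∑ j, ω (e (i, j)) := fun ω => by
    rw [← e.sum_comp, Fintype.sum_prod_type]
  have hW' : ∀ ω : τ → G, ∑ t, ω t = ∑ j, ∑ i, ω (e (i, j)) := fun ω => by
    rw [hW, sum_comm]
  have h1 := col_chain h hη hm σ univ hne
  rw [← hP, card_univ] at h1
  simp only [mem_univ, if_true] at h1
  have h2 : P.ent (fun ω j => ∑ i, ω i j) ≤ Fintype.card ι * (avg μ + D μ) := by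
    refine (ent_fun_le P fun j ω => ∑ i, ω i j).trans (le_of_eq ?_)
    have : ∀ j, P.ent (fun ω => ∑ i, ω i j) = avg μ + D μ := fun j => by
      rw [hP, ent_pi_sum (fun i => pi fun j => μ (σ j i)) (fun _ x => x j) univ]
      simp only [fun i => map_pi_eval (fun j => μ (σ j i)) j fun x => x, map_id]
      rw [(σ j).prod_comp μ, D]
      ring
    simp only [this, sum_const, card_univ, nsmul_eq_mul]
  have h3 := h fun i => ∏ j, μ (σ j i)
  have h4 : P.ent (fun ω => ∑ i, ∑ j, ω i j) = H (∏ i, ∏ j, μ (σ j i)) := by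
    rw [hP, ent_pi_sum (fun i => pi fun j => μ (σ j i)) (fun _ x => ∑ j, x j) univ]
    simp only [fun i => map_pi_sum (fun j => μ (σ j i)) (fun _ x => x) univ, map_id]
  have h5 : ∑ i, rd (μ i) (∏ j, μ (σ j i)) ≤ Kd ι * D μ := by
    obtain ⟨j0, hj0⟩ := hne
    have : ∀ i, rd (μ i) (∏ j, μ (σ j i)) ≤ (Kc ι + 3 * Fintype.card ι + 2) * D μ := fun i => by
      have := rd_prod_le μ hm hG univ (fun j => σ j i) (fun _ => 1)
        ((card_le_univ _).trans (Nat.le_self_pow two_ne_zero _)) (fun _ _ => by omega) hj0 rfl i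
      simp only [one_smul, map_id] at this
      linarith only [hD, this, mul_nonneg_of_nonpos_of_nonpos (Mathlib.Tactic.Linarith.sub_nonpos_of_le (Mathlib.Tactic.Linarith.natCast_nonneg ℝ (Fintype.card ι))) (Mathlib.Tactic.Linarith.sub_nonpos_of_le hD)]
    refine (sum_le_sum fun i _ => this i).trans (le_of_eq ?_)
    rw [sum_const, card_univ, nsmul_eq_mul, Kd, mul_assoc]
  have h6 := mul_le_mul_of_nonneg_left h5 hη
  rw [D.eq_1 fun i => ∏ j, μ (σ j i), avg, ← h4] at h3
  rw [← hmap] at h1 h2 h3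
  simp only [ent_map] at h1 h2 h3
  simp only [← hW] at h3
  have h7 := (pi ν).submod (fun ω i => ∑ j, ω (e (i, j))) (fun ω => (A ω, B ω, ∑ t, ω t))
    (fun ω => (A ω, ∑ t, ω t)) (fun ω => (B ω, fun i => ∑ j, ω (e (i, j))))
    (fun ω ω' h => by
      rw [hA ω ω' (congrFun h), hW, hW]
      simp only [congrFun h])
    (fun ω ω' h => by simp only [Prod.mk.injEq] at h ⊢; exact ⟨h.1, h.2.2⟩)
    (fun ω ω' h h' => by simp only [Prod.mk.injEq] at h' ⊢; exact ⟨h'.2.1, h⟩)
  have h8 := (pi ν).submod (fun ω j => ∑ i, ω (e (i, j)))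
    (fun ω => (B ω, fun i => ∑ j, ω (e (i, j))))
    (fun ω => (B ω, ∑ t, ω t))
    (fun ω => (fun j => ∑ i, ω (e (i, j)), fun i => ∑ j, ω (e (i, j))))
    (fun ω ω' h => by
      rw [hB ω ω' (congrFun h), hW', hW']
      simp only [congrFun h])
    (fun ω ω' h => by
      simp only [Prod.mk.injEq] at h ⊢
      refine ⟨h.1, ?_⟩
      rw [hW, hW]
      simp only [congrFun h.2])
    (fun ω ω' h h' => by simp only [Prod.mk.injEq] at h' ⊢; exact ⟨h, h'.2⟩)
  linarith only [h6, h1, h2, h3, h7, h8]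

end FP

end Pool.Agent.Lib.PFR
end

-- merged part: Pool.Agent.Lib.PFR.Endgame
section
/-!
The endgame: a minimiser of the penalised multidistance has multidistance zero.
-/

set_option autoImplicit false

open Finset Real

namespace Pool.Agent.Lib.PFR

namespace FP

variable {G : Type*} [AddCommGroup G] [Fintype G]

theorem D_const_le {ι : Type*} [Fintype ι] [DecidableEq ι] (hm : 3 ≤ Fintype.card ι) (U : FP G) :
    D (fun _ : ι => U) ≤ Fintype.card ι * (H (U * U) - H U) := by
  obtain ⟨a⟩ : Nonempty ι := Fintype.card_pos_iff.mp (by omega)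
  have hm0 : (0 : ℝ) < Fintype.card ι := by exact_mod_cast (by omega : 0 < Fintype.card ι)
  have h1 := kv_prod (univ.erase a) U fun _ => U
  rw [mul_prod_erase univ (fun _ : ι => U) (mem_univ a), sum_const,
    card_erase_of_mem (mem_univ a), card_univ, nsmul_eq_mul, Nat.cast_sub (by omega),
    Nat.cast_one] at h1
  have h2 := H_le_mul U U
  rw [D, avg, sum_const, card_univ, nsmul_eq_mul, mul_div_cancel_left₀ _ hm0.ne']
  linarith only [h1, h2]

/-- The penalty parameter. -/
noncomputable def eta (m : ℕ) [NeZero m] : ℝ :=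
  1 / (1 + 4 * m * ((m + 1) * Kd (ZMod m)) + 2 * m * (Kc (ZMod m) + m))

theorem eta_den_pos (m : ℕ) [NeZero m] :
    0 ≤ 4 * m * ((m + 1) * Kd (ZMod m)) + 2 * m * (Kc (ZMod m) + m) := by
  have := Kd_nonneg (ι := ZMod m)
  have := Kc_pos (ι := ZMod m)
  positivity

theorem eta_pos (m : ℕ) [NeZero m] : 0 < eta m := by
  have := eta_den_pos m
  unfold eta
  rw [add_assoc]
  positivity

theorem eta_le_one (m : ℕ) [NeZero m] : eta m ≤ 1 := by
  have := eta_den_pos m
  unfold eta
  rw [div_le_one (by linarith)]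
  linarith

theorem endgame {m : ℕ} [NeZero m] (hm : 3 ≤ m) (hG : ∀ x : G, m • x = 0) {μ : ZMod m → FP G}
    (h : IsMin (eta m) μ) : D μ = 0 := by
  have hc : Fintype.card (ZMod m) = m := ZMod.card m
  have hm' : 3 ≤ Fintype.card (ZMod m) := by rw [hc]; exact hm
  have hG' : ∀ x : G, Fintype.card (ZMod m) • x = 0 := by rw [hc]; exact hG
  have hη := eta_pos m
  have hη1 := eta_le_one m
  have hD := D_nonneg μ hm'
  have hadd : ∀ (a b : ZMod m) (x : G), (a + b).val • x = a.val • x + b.val • x := by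
    intro a b x
    rw [ZMod.val_add, ← nsmul_eq_mod_nsmul _ (hG x), add_smul]
  set ν : ZMod m × ZMod m → FP G := fun t => μ t.1 with hν
  set P := pi ν with hP
  set Z1 : (ZMod m × ZMod m → G) → G := fun ω => ∑ t, t.1.val • ω t with hZ1
  set Z2 : (ZMod m × ZMod m → G) → G := fun ω => ∑ t, t.2.val • ω t with hZ2
  set W : (ZMod m × ZMod m → G) → G := fun ω => ∑ t, ω t with hW
  have hZ : ∀ ω, Z1 ω + Z2 ω = ∑ t : ZMod m × ZMod m, (t.1 + t.2).val • ω t := fun ω => by
    simp only [hZ1, hZ2, hadd, sum_add_distrib]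
  have hrow : ∀ (e : ZMod m × ZMod m ≃ ZMod m × ZMod m) (c : ZMod m × ZMod m → ℕ)
      (c' : ZMod m → ℕ), (∀ i j, c (e (i, j)) = c' i) → ∀ ω ω' : ZMod m × ZMod m → G,
      (∀ i, ∑ j, ω (e (i, j)) = ∑ j, ω' (e (i, j))) → ∑ t, c t • ω t = ∑ t, c t • ω' t := by
    intro e c c' hcc ω ω' hh
    rw [← e.sum_comp, ← e.sum_comp fun t => c t • ω' t, Fintype.sum_prod_type,
      Fintype.sum_prod_type]
    simp only [hcc, ← smul_sum, hh]
  have hcol : ∀ (e : ZMod m × ZMod m ≃ ZMod m × ZMod m) (c : ZMod m × ZMod m → ℕ)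
      (c' : ZMod m → ℕ), (∀ i j, c (e (i, j)) = c' j) → ∀ ω ω' : ZMod m × ZMod m → G,
      (∀ j, ∑ i, ω (e (i, j)) = ∑ i, ω' (e (i, j))) → ∑ t, c t • ω t = ∑ t, c t • ω' t := by
    intro e c c' hcc ω ω' hh
    rw [← e.sum_comp, ← e.sum_comp fun t => c t • ω' t, Fintype.sum_prod_type_right,
      Fintype.sum_prod_type_right]
    simp only [hcc, ← smul_sum, hh]
  let e2 : ZMod m × ZMod m ≃ ZMod m × ZMod m :=
    { toFun := fun z => (z.1, z.2 - z.1)
      invFun := fun z => (z.1, z.1 + z.2)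
      left_inv := fun z => by simp
      right_inv := fun z => by simp }
  let e3 : ZMod m × ZMod m ≃ ZMod m × ZMod m :=
    { toFun := fun z => (z.2 - z.1, z.1)
      invFun := fun z => (z.2, z.1 + z.2)
      left_inv := fun z => by simp
      right_inv := fun z => by simp }
  have i1 := mi_bound h hη.le hm' hG' (Equiv.refl _) ν (fun _ => Equiv.refl _) (fun _ _ => rfl)
    Z1 Z2 (hrow _ _ (fun i => i.val) fun _ _ => rfl) (hcol _ _ (fun i => i.val) fun _ _ => rfl)
  have i2 := mi_bound h hη.le hm' hG' e2 ν (fun _ => Equiv.refl _) (fun _ _ => rfl)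
    Z1 (fun ω => Z1 ω + Z2 ω) (hrow _ _ (fun i => i.val) fun _ _ => rfl)
    (fun ω ω' hh => by
      rw [hZ, hZ]
      exact hcol e2 _ (fun i => i.val) (fun _ _ => by simp [e2]) ω ω' hh)
  have i3 := mi_bound h hη.le hm' hG' e3 ν (fun r => Equiv.subLeft r) (fun _ _ => rfl)
    Z2 (fun ω => Z1 ω + Z2 ω) (hrow _ _ (fun i => i.val) fun _ _ => rfl)
    (fun ω ω' hh => by
      rw [hZ, hZ]
      exact hcol e3 _ (fun i => i.val) (fun _ _ => by simp [e3]) ω ω' hh)
  rw [← hP, hc] at i1 i2 i3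
  set t := eta m * ((m + 1) * Kd (ZMod m) * D μ) with ht
  change P.ent (fun ω => (Z1 ω, W ω)) + P.ent (fun ω => (Z2 ω, W ω)) -
    P.ent (fun ω => (Z1 ω, Z2 ω, W ω)) - P.ent W ≤ t at i1
  change P.ent (fun ω => (Z1 ω, W ω)) + P.ent (fun ω => (Z1 ω + Z2 ω, W ω)) -
    P.ent (fun ω => (Z1 ω, Z1 ω + Z2 ω, W ω)) - P.ent W ≤ t at i2
  change P.ent (fun ω => (Z2 ω, W ω)) + P.ent (fun ω => (Z1 ω + Z2 ω, W ω)) -
    P.ent (fun ω => (Z2 ω, Z1 ω + Z2 ω, W ω)) - P.ent W ≤ t at i3
  have j2 : P.ent (fun ω => (Z1 ω, Z1 ω + Z2 ω, W ω)) = P.ent (fun ω => (Z1 ω, Z2 ω, W ω)) :=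
    P.ent_congr fun ω ω' => by
      simp only [Prod.mk.injEq, and_congr_right_iff]
      intro h1
      rw [h1, add_right_inj]
  have j3 : P.ent (fun ω => (Z2 ω, Z1 ω + Z2 ω, W ω)) = P.ent (fun ω => (Z1 ω, Z2 ω, W ω)) :=
    P.ent_congr fun ω ω' => by
      simp only [Prod.mk.injEq]
      constructor
      · rintro ⟨h1, h2, h3⟩
        rw [h1] at h2
        exact ⟨add_right_cancel h2, h1, h3⟩
      · rintro ⟨h1, h2, h3⟩
        exact ⟨h2, by rw [h1, h2], h3⟩
  have hb := bsg P Z1 Z2 W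
  set V : (ZMod m × ZMod m → G) → G × G := fun ω => (Z1 ω + Z2 ω, W ω) with hV
  have hcard : (univ : Finset (ZMod m × ZMod m)).card ≤ Fintype.card (ZMod m) ^ 2 := by
    rw [card_univ, Fintype.card_prod, sq]
  have h01 : (1 : ZMod m).val = 1 := by
    have : Fact (1 < m) := ⟨by omega⟩
    exact ZMod.val_one m
  have lZ2 : P.map Z2 = ∏ t : ZMod m × ZMod m, (μ t.1).map fun x => t.2.val • x :=
    map_pi_sum ν (fun t x => t.2.val • x) univ
  have r1 : ∀ i, rd (μ i) (P.map Z2) ≤ (Kc (ZMod m) + m) * D μ := fun i => by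
    have := rd_prod_le μ hm' hG' univ (fun t : ZMod m × ZMod m => t.1) (fun t => t.2.val) hcard
      (fun t _ => by rw [hc]; exact t.2.val_lt.le) (mem_univ (0, 1)) h01 i
    rwa [hc, ← lZ2] at this
  have r2 : P.ent Z2 ≤ avg μ + Kc (ZMod m) * D μ := by
    rw [← H_map, lZ2]
    exact (H_le_mul' _ _).trans (lin_le μ hm' univ (fun t : ZMod m × ZMod m => t.1)
      (fun t => t.2.val) hcard
      (fun t _ => by rw [hc]; exact t.2.val_lt.le.trans (Nat.le_self_pow two_ne_zero _)) 0)
  have r3 : P.ent W ≤ avg μ + Kc (ZMod m) * D μ := by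
    have := ent_pi_sum ν (fun _ x => x) univ
    simp only [map_id] at this
    exact this.trans_le (prod_le μ hm' univ (fun t : ZMod m × ZMod m => t.1) hcard)
  have r4 : 2 * (avg μ - m * D μ) ≤ P.ent fun ω => (Z2 ω, W ω) := by
    clear * - m h01 G P Z2 W μ hm' ν hc ht t
    have hne : ((0, 0) : ZMod m × ZMod m) ≠ (0, 1) := by
      intro hh
      have := congrArg (fun z : ZMod m × ZMod m => z.2.val) hh
      simp only [ZMod.val_zero, h01] at this
      omega
    let R : (ZMod m × ZMod m → G) → ZMod m × ZMod m → G :=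
      fun ω t => if t = (0, 0) ∨ t = (0, 1) then 0 else ω t
    have a1 := P.subadd (fun ω => (Z2 ω, W ω)) R (fun ω => ((ω (0, 0), ω (0, 1)), R ω))
      fun ω ω' h1 h2 => by
        simp only [Prod.mk.injEq] at h1 ⊢
        have hz : ∀ t, t ≠ (0, 0) ∧ t ≠ (0, 1) → ω t - ω' t = 0 := fun t ht => by
          have := congrFun h2 t
          simp only [R, ht.1, ht.2, or_self, if_false] at this
          rw [this, sub_self]
        have b1 : ∑ t : ZMod m × ZMod m, t.2.val • (ω t - ω' t) = 0 := by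
          simp only [smul_sub, sum_sub_distrib]
          exact sub_eq_zero.mpr h1.1
        have b2 : ∑ t : ZMod m × ZMod m, (ω t - ω' t) = 0 := by
          simp only [sum_sub_distrib]
          exact sub_eq_zero.mpr h1.2
        rw [Fintype.sum_eq_add _ _ hne fun t ht => by rw [hz t ht, smul_zero]] at b1
        rw [Fintype.sum_eq_add _ _ hne hz] at b2
        simp only [ZMod.val_zero, zero_smul, h01, one_smul, zero_add] at b1
        rw [b1, add_zero] at b2
        exact ⟨⟨sub_eq_zero.mp b2, sub_eq_zero.mp b1⟩, h2⟩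
    rw [(indep_pi ν {(0, 0), (0, 1)} (fun ω => (ω (0, 0), ω (0, 1))) R
      (fun ω ω' hh => by rw [hh _ (by simp), hh _ (by simp)])
      (fun ω ω' hh => funext fun t => by
        simp only [R]
        split_ifs with h1
        · rfl
        · exact hh t (by simpa using h1))).ent_pair,
      (indep_pi ν {(0, 0)} (fun ω => ω (0, 0)) (fun ω => ω (0, 1))
        (fun ω ω' hh => hh _ (by simp))
        (fun ω ω' hh => hh _ (by simpa using hne.symm))).ent_pair,
      ent_pi_eval ν (0, 0) fun x => x, ent_pi_eval ν (0, 1) fun x => x] at a1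
    have a2 := avg_le_H μ hm' 0
    rw [hc] at a2
    change H (μ 0) + H (μ 0) + P.ent R ≤ _ at a1
    linarith
  have r5 : P.ent (fun ω => (Z2 ω, V ω)) = P.ent (fun ω => (Z1 ω, Z2 ω, W ω)) := j3
  have r6 : ∀ i, P.ex (fun ω => rd (μ i) ((P.fib V ω).map Z2)) ≤
      2 * ((Kc (ZMod m) + m) * D μ) + t / 2 := fun i => by
    have := ex_rd_fib_le (μ i) P Z2 V
    have := r1 i
    change P.ent (fun ω => (Z2 ω, W ω)) + P.ent V - _ - _ ≤ t at i3
    linarith
  have f1 := P.ex_mono fun ω _ => (h fun _ => (P.fib V ω).map Z2).trans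
    (D_const_le hm' ((P.fib V ω).map Z2))
  rw [ex_sub, ex_const, ex_const_mul, ex_sum, ex_const_mul, hc] at f1
  have f2 : ∑ i, P.ex (fun ω => rd (μ i) ((P.fib V ω).map Z2)) ≤
      m * (2 * ((Kc (ZMod m) + m) * D μ) + t / 2) := by
    refine (sum_le_sum fun i _ => r6 i).trans (le_of_eq ?_)
    rw [sum_const, card_univ, hc, nsmul_eq_mul]
  have hm0 : (0 : ℝ) ≤ m := Nat.cast_nonneg m
  have f3 := mul_le_mul_of_nonneg_left f2 hη.le
  have f4 := mul_le_mul_of_nonneg_left (hb.trans (show _ ≤ 3 * t by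
    change P.ent (fun ω => (Z1 ω, W ω)) + P.ent V - _ - _ ≤ t at i2
    change P.ent (fun ω => (Z2 ω, W ω)) + P.ent V - _ - _ ≤ t at i3
    linarith)) hm0
  have hKd := Kd_nonneg (ι := ZMod m)
  have ht0 : 0 ≤ t := by clear * - m G μ hη hm hKd hD; positivity
  have f5 : eta m * (m * (t / 2)) ≤ m * t := by
    clear * - m t hη1 hm G μ hη hKd hD
    have : eta m * (m * (t / 2)) ≤ 1 * (m * (t / 2)) :=
      mul_le_mul_of_nonneg_right hη1 (by positivity)
    have : 0 ≤ m * t := by positivity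
    linarith
  have f6 : D μ ≤ eta m * (4 * m * ((m + 1) * Kd (ZMod m)) + 2 * m * (Kc (ZMod m) + m)) * D μ := by
    clear * - G m μ P V Z2 f1 t ht f3 f4 f5
    rw [ht] at f3 f4 f5
    nlinarith
  have f7 : eta m * (4 * m * ((m + 1) * Kd (ZMod m)) + 2 * m * (Kc (ZMod m) + m)) =
      1 - eta m := by
    clear * - m
    have := eta_den_pos m
    have h1 : eta m * (1 + (4 * m * ((m + 1) * Kd (ZMod m)) + 2 * m * (Kc (ZMod m) + m))) = 1 := by
      rw [eta, add_assoc]
      exact one_div_mul_cancel (by linarith)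
    linarith
  rw [f7] at f6
  clear * - G m μ hD f6 hη; nlinarith

end FP

end Pool.Agent.Lib.PFR
end
end

-- merged part: Pool.Agent.Lib.PFR.Duality
section
-- merged part: Pool.Agent.Lib.PFR.Main
section
/-!
The entropic polynomial Freiman-Ruzsa theorem in abelian groups of bounded torsion
(Gowers, Green, Manners and Tao).
-/

set_option autoImplicit false

open Finset Real Topology

namespace Pool.Agent.Lib.PFR

namespace FP

section top

variable {Ω Ω' : Type*} [Fintype Ω] [Fintype Ω']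

instance : TopologicalSpace (FP Ω) := TopologicalSpace.induced FP.p inferInstance

theorem isInducing_p : IsInducing (FP.p : FP Ω → Ω → ℝ) := ⟨rfl⟩

theorem continuous_p (x : Ω) : Continuous fun μ : FP Ω => μ.p x :=
  (continuous_apply x).comp isInducing_p.continuous

instance : CompactSpace (FP Ω) := by
  refine ⟨isInducing_p.isCompact_iff.mpr ?_⟩
  have : FP.p '' (Set.univ : Set (FP Ω)) = stdSimplex ℝ Ω := by
    ext f
    constructor
    · rintro ⟨μ, -, rfl⟩
      exact ⟨μ.nonneg, μ.sum_one⟩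
    · intro h
      exact ⟨⟨f, h.1, h.2⟩, trivial, rfl⟩
  rw [this]
  exact isCompact_stdSimplex ℝ Ω

theorem continuous_H : Continuous (H : FP Ω → ℝ) := by
  have : (H : FP Ω → ℝ) = fun μ => ∑ x, negMulLog (μ.p x) := funext H_eq_sum
  rw [this]
  exact continuous_finsetSum _ fun x _ => continuous_negMulLog.comp (continuous_p x)

theorem continuous_map (φ : Ω → Ω') : Continuous fun μ : FP Ω => μ.map φ := by
  refine isInducing_p.continuous_iff.mpr (continuous_pi fun y => ?_)
  exact continuous_finsetSum _ fun x _ => (continuous_p x).mul continuous_const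

end top

variable {G : Type*} [AddCommGroup G] [Fintype G]

instance : ContinuousMul (FP G) := by
  refine ⟨isInducing_p.continuous_iff.mpr (continuous_pi fun y => ?_)⟩
  refine continuous_finsetSum _ fun z _ => Continuous.mul ?_ continuous_const
  exact ((continuous_p z.1).comp continuous_fst).mul ((continuous_p z.2).comp continuous_snd)

theorem exists_isMin {ι : Type*} [Fintype ι] [DecidableEq ι] (η : ℝ) (hη : 0 ≤ η) (μ0 : FP G) :
    ∃ μ : ι → FP G, IsMin η μ ∧
      D μ + η * ∑ i, rd μ0 (μ i) ≤ D (fun _ : ι => μ0) + η * ∑ _i : ι, rd μ0 μ0 := by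
  have hc : Continuous fun μ : ι → FP G => D μ + η * ∑ i, rd μ0 (μ i) := by
    refine Continuous.add (Continuous.sub ?_ (Continuous.div_const ?_ _))
      (continuous_const.mul (continuous_finsetSum _ fun i _ => ?_))
    · exact continuous_H.comp (continuous_finsetProd _ fun i _ => continuous_apply i)
    · exact continuous_finsetSum _ fun i _ => continuous_H.comp (continuous_apply i)
    · refine (Continuous.sub ?_ continuous_const).sub
        ((continuous_H.comp (continuous_apply i)).div_const _)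
      exact continuous_H.comp
        (continuous_const.mul ((continuous_map _).comp (continuous_apply i)))
  obtain ⟨μ, -, hμ⟩ := isCompact_univ.exists_isMinOn ⟨fun _ : ι => μ0, trivial⟩ hc.continuousOn
  refine ⟨μ, fun ν => ?_, hμ (Set.mem_univ _)⟩
  have h1 : D μ + η * ∑ i, rd μ0 (μ i) ≤ D ν + η * ∑ i, rd μ0 (ν i) := hμ (Set.mem_univ ν)
  have h2 : ∑ i, rd μ0 (ν i) ≤ ∑ i, rd μ0 (μ i) + ∑ i, rd (μ i) (ν i) := by
    rw [← sum_add_distrib]
    exact sum_le_sum fun i _ => rd_tri _ _ _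
  have h3 := mul_le_mul_of_nonneg_left h2 hη
  linarith only [h1, h3]

/-- A law at distance zero from itself is uniform on a coset. -/
theorem coset_of_rd_zero (U : FP G) (h : rd U U ≤ 0) :
    ∃ K : AddSubgroup G, H U = log (Nat.card K) ∧
      ∀ x y, U.p x ≠ 0 → U.p y ≠ 0 → x - y ∈ K := by
  classical
  have h1 : ∀ x y, U.p x ≠ 0 → U.p y ≠ 0 → U.p x = (U * U.neg).p (x - y) := by
    intro x y hx hy
    have e1 : (U.prod U).map (fun z => z.1 - z.2) = U * U.neg := ext_ex fun F => by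
      simp only [ex_map, ex_prod, ex_mul, ex_negl, sub_eq_add_neg]
    have e2 : (U.prod U).ent (fun z => (z.1 - z.2, z.2)) = H U + H U := by
      have := (indep_prod U U (fun x => x) fun x => x).ent_pair
      rw [ent_fst U U fun x => x, ent_snd U U fun x => x] at this
      refine Eq.trans (ent_congr _ fun z w => ?_) this
      simp only [Prod.mk.injEq]
      constructor
      · rintro ⟨h1, h2⟩
        rw [h2] at h1
        exact ⟨sub_left_injective h1, h2⟩
      · rintro ⟨h1, h2⟩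
        exact ⟨by rw [h1, h2], h2⟩
    have e3 := (U.prod U).pv_mul_of_ent (fun z => z.1 - z.2) (fun z => z.2) (by
      rw [e2, ← H_map, e1, ent_snd U U fun x => x]
      rw [rd] at h
      change _ + H U ≤ _
      linarith only [h]) (x, y) (mul_ne_zero hx hy)
    have e4 : (U.prod U).pv (fun z => (z.1 - z.2, z.2)) (x, y) = U.p x * U.p y := by
      rw [← prod_p U U (x, y), ← pr_eq_self]
      refine pr_congr _ fun z _ => ?_
      simp only [Prod.ext_iff]
      constructor
      · rintro ⟨h1, h2⟩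
        rw [h2] at h1
        exact ⟨sub_left_injective h1, h2⟩
      · rintro ⟨h1, h2⟩
        exact ⟨by rw [h1, h2], h2⟩
    have e5 : (U.prod U).pv (fun z => z.2) (x, y) = U.p y := by
      rw [← pv_map (U.prod U) (fun z => z.2) (fun z => z), map_snd U U fun z => z, map_id, pv,
        pr_eq_self]
    have e6 : (U.prod U).pv (fun z => z.1 - z.2) (x, y) = (U * U.neg).p (x - y) := by
      rw [← e1]; rfl
    rw [e4, e5, e6] at e3
    exact mul_right_cancel₀ hy e3
  set c := (U * U.neg).p 0 with hc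
  have h2 : ∀ x, U.p x ≠ 0 → U.p x = c := fun x hx => by rw [h1 x x hx hx, sub_self]
  obtain ⟨x0, hx0⟩ := U.exists_supp
  have hc0 : 0 < c := h2 x0 hx0 ▸ U.pos_of_ne hx0
  have h3 : ∀ x y z, U.p x ≠ 0 → U.p y ≠ 0 → U.p z ≠ 0 → U.p (z + (x - y)) ≠ 0 := by
    intro x y z hx hy hz
    have e1 : (U * U.neg).p (x - y) = U.ex fun b => U.p (b + (x - y)) := by
      rw [← pr_eq_self, pr, mul_comm, ex_mul, ex_negl]
      refine U.ex_congr fun b _ => ?_
      rw [← pr_eq_self, pr]
      exact U.ex_congr fun a _ => ind_congr (by rw [neg_add_eq_iff_eq_add])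
    have e2 := U.eq_zero_of_ex (F := fun b => c - U.p (b + (x - y)))
      (fun b _ => by
        by_cases hb : U.p (b + (x - y)) = 0
        · rw [hb, sub_zero]; exact hc0.le
        · rw [h2 _ hb, sub_self])
      (by rw [ex_sub, ex_const, ← e1, ← h1 x y hx hy, h2 x hx, sub_self]) z hz
    rw [← sub_eq_zero.mp e2]
    exact hc0.ne'
  let K : AddSubgroup G :=
    { carrier := {d | ∀ z, U.p z ≠ 0 ↔ U.p (z + d) ≠ 0}
      add_mem' := fun {a b} ha hb z => by rw [← add_assoc, ← hb, ← ha]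
      zero_mem' := fun z => by rw [add_zero]
      neg_mem' := fun {a} ha z => by rw [ha (z + -a), neg_add_cancel_right] }
  have hK : ∀ x y, U.p x ≠ 0 → U.p y ≠ 0 → x - y ∈ K := by
    intro x y hx hy z
    refine ⟨h3 x y z hx hy, fun hz => ?_⟩
    have := h3 y x _ hy hx hz
    rwa [add_assoc, sub_add_sub_cancel, sub_self, add_zero] at this
  refine ⟨K, ?_, hK⟩
  have h4 : (Nat.card K : ℝ) * c = 1 := by
    rw [← U.sum_one, ← Equiv.sum_comp (Equiv.addLeft x0) U.p]
    have : ∀ d, U.p (Equiv.addLeft x0 d) = if d ∈ K then c else 0 := by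
      intro d
      split_ifs with hd
      · exact h2 _ ((hd x0).mp hx0)
      · by_contra hne
        have := hK _ _ hne hx0
        simp only [Equiv.coe_addLeft, add_sub_cancel_left] at this
        exact hd this
    simp only [this]
    rw [← sum_filter, sum_const, nsmul_eq_mul, Nat.card_eq_fintype_card, Fintype.card_subtype]
  rw [H, ent, ← U.ex_const (log (Nat.card K))]
  refine U.ex_congr fun x hx => ?_
  rw [pv, pr_eq_self, h2 x hx, ← log_inv, eq_inv_of_mul_eq_one_left h4]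

/-- The constant in the polynomial Freiman-Ruzsa theorem. -/
noncomputable def Cp (m : ℕ) [NeZero m] : ℝ := 2 * (m / eta m + 2 * m)

theorem Cp_pos (m : ℕ) [NeZero m] : 0 < Cp m := by
  have := eta_pos m
  have : (0 : ℝ) < m := by exact_mod_cast Nat.pos_of_ne_zero (NeZero.ne m)
  unfold Cp; positivity

/-- Entropic polynomial Freiman-Ruzsa theorem in torsion `m`. -/
theorem pfr {m : ℕ} [NeZero m] (hm : 3 ≤ m) (hG : ∀ x : G, m • x = 0) (μ0 : FP G) :
    ∃ K : AddSubgroup G,
      μ0.ent (fun x => (x : G ⧸ K)) ≤ Cp m * (H (μ0 * μ0) - H μ0) ∧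
      log (Nat.card K) ≤ H μ0 + Cp m * (H (μ0 * μ0) - H μ0) := by
  have hc : Fintype.card (ZMod m) = m := ZMod.card m
  have hm' : 3 ≤ Fintype.card (ZMod m) := by rw [hc]; exact hm
  have hη := eta_pos m
  obtain ⟨μ, h1, h2⟩ := exists_isMin (ι := ZMod m) (eta m) hη.le μ0
  have h3 := endgame hm hG h1
  have h4 := rd_self_le μ hm' 0
  rw [h3, mul_zero] at h4
  obtain ⟨K, hK1, hK2⟩ := coset_of_rd_zero (μ 0) h4
  set s := H (μ0 * μ0) - H μ0 with hs
  have h5 := D_const_le hm' μ0
  have h6 : rd μ0 μ0 ≤ 2 * s := by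
    have := tri μ0 μ0 μ0.neg
    rw [← neg_mul, H_neg] at this
    rw [rd]; linarith only [this]
  have h7 : rd μ0 (μ 0) ≤ ∑ i, rd μ0 (μ i) :=
    single_le_sum (f := fun i => rd μ0 (μ i)) (fun i _ => rd_nonneg _ _) (mem_univ 0)
  rw [h3, sum_const, card_univ, hc, nsmul_eq_mul] at h2
  rw [hc] at h5
  have hm0 : (0 : ℝ) ≤ m := Nat.cast_nonneg m
  have h8 : 2 * rd μ0 (μ 0) ≤ Cp m * s := by
    have a1 : eta m * rd μ0 (μ 0) ≤ m * s + eta m * (m * (2 * s)) := by
      have := mul_le_mul_of_nonneg_left h7 hη.le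
      have := mul_le_mul_of_nonneg_left (mul_le_mul_of_nonneg_left h6 hm0) hη.le
      linarith
    have a2 : eta m * (Cp m * s) = 2 * (m * s + eta m * (m * (2 * s))) := by
      unfold Cp
      field_simp
    refine le_of_mul_le_mul_left ?_ hη
    linarith
  refine ⟨K, ?_, ?_⟩
  · set P := μ0.prod (μ 0) with hP
    have a1 := P.submod' (fun z => z.1 + - z.2) (fun z => z.1) (fun z => (z.1 : G ⧸ K))
      (fun z => (z.1, z.2))
      (fun z w hz hw h => by
        rw [QuotientAddGroup.eq_iff_sub_mem]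
        have : z.1 - w.1 = z.2 - w.2 := by
          rw [sub_eq_sub_iff_sub_eq_sub, sub_eq_add_neg, sub_eq_add_neg]; exact h
        rw [this]
        exact hK2 _ _ (prod_supp hz).2 (prod_supp hw).2)
      (fun z w _ _ h => by rw [h])
      (fun z w _ _ h h' => by
        rw [h'] at h
        exact Prod.ext h' (neg_injective (add_left_cancel h)))
    have a2 : P.ent (fun z => z.1 + - z.2) = H (μ0 * (μ 0).neg) := by
      rw [(indep_prod μ0 (μ 0) (fun x => x) fun x => - x).ent_add, map_fst μ0 (μ 0) fun x => x,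
        map_snd μ0 (μ 0) fun x => - x, map_id, neg]
    rw [(indep_prod μ0 (μ 0) (fun x => x) fun x => x).ent_pair, a2,
      ent_fst μ0 (μ 0) fun x => (x : G ⧸ K), ent_snd μ0 (μ 0) fun x => x] at a1
    have a3 := sub_le_rd μ0 (μ 0)
    change _ + H (μ 0) + _ ≤ _ at a1
    have a4 := rd.eq_1 μ0 (μ 0)
    linarith
  · have a3 := sub_le_rd (μ 0) μ0
    rw [rd_symm] at a3
    linarith

end FP

end Pool.Agent.Lib.PFR
end

-- merged part: Pool.Agent.Lib.PFR.Levels
section
/-!
Combinatorial steps for approximate duality: level sets, pull-back and the two uses of the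
polynomial Freiman-Ruzsa theorem and of Parseval's identity.
-/

set_option autoImplicit false

open Finset Real
open scoped ComplexConjugate

namespace Pool.Agent.Lib.PFR

variable {R κ κ' : Type*}

theorem sum_inv_rank (r : R → ℝ) (S : Finset R) :
    ∑ a ∈ S, (1 : ℝ) / (S.filter fun a' => r a ≤ r a').card ≤ (harmonic S.card : ℝ) := by
  classical
  induction S using Finset.induction_on_min_value r with
  | empty => simp
  | insert a s ha hmin ih =>
    rw [sum_insert ha, card_insert_of_notMem ha, harmonic_succ]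
    have h1 : (insert a s).filter (fun a' => r a ≤ r a') = insert a s := by
      refine filter_true_of_mem fun x hx => ?_
      rcases mem_insert.mp hx with rfl | hx
      · exact le_rfl
      · exact hmin x hx
    rw [h1, card_insert_of_notMem ha]
    have h2 : ∑ x ∈ s, (1 : ℝ) / ((insert a s).filter fun a' => r x ≤ r a').card ≤
        ∑ x ∈ s, (1 : ℝ) / (s.filter fun a' => r x ≤ r a').card := by
      refine sum_le_sum fun x hx => one_div_le_one_div_of_le ?_ ?_
      · have : (s.filter fun a' => r x ≤ r a').Nonempty := ⟨x, mem_filter.mpr ⟨hx, le_rfl⟩⟩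
        exact_mod_cast this.card_pos
      · exact_mod_cast card_le_card (filter_subset_filter _ (subset_insert a s))
    push_cast
    rw [one_div]
    linarith only [ih, h2]

theorem level_select [Fintype R] (r : R → ℝ) (S : Finset R) (T : ℝ) (hT : 0 < T)
    (h : T ≤ ∑ a ∈ S, r a) : ∃ A ⊆ S, A.Nonempty ∧
      ∀ a ∈ A, T ≤ (1 + log (Fintype.card R)) * A.card * r a := by
  classical
  have hS : S.Nonempty := by
    by_contra h0
    rw [not_nonempty_iff_eq_empty.mp h0, sum_empty] at h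
    linarith
  have hL : (harmonic S.card : ℝ) ≤ 1 + log (Fintype.card R) :=
    (harmonic_le_one_add_log _).trans (add_le_add le_rfl (log_le_log
      (by exact_mod_cast hS.card_pos) (by exact_mod_cast card_le_univ S)))
  have hL0 : 0 < 1 + log (Fintype.card R) := by
    have := log_natCast_nonneg (Fintype.card R); linarith
  by_contra hc
  push Not at hc
  have h1 : ∀ a ∈ S, r a < T / (1 + log (Fintype.card R)) *
      (1 / (S.filter fun a' => r a ≤ r a').card) := by
    intro a ha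
    have hne : (S.filter fun a' => r a ≤ r a').Nonempty := ⟨a, mem_filter.mpr ⟨ha, le_rfl⟩⟩
    obtain ⟨b, hb, hlt⟩ := hc _ (filter_subset _ _) hne
    have hpos : (0 : ℝ) < (S.filter fun a' => r a ≤ r a').card := by exact_mod_cast hne.card_pos
    rw [div_mul_div_comm, mul_one, lt_div_iff₀ (by positivity), mul_comm]
    exact lt_of_le_of_lt (mul_le_mul_of_nonneg_left (mem_filter.mp hb).2 (by positivity)) hlt
  have h2 := sum_lt_sum_of_nonempty hS h1
  rw [← mul_sum] at h2
  have h3 := mul_le_mul_of_nonneg_left ((sum_inv_rank r S).trans hL) (div_pos hT hL0).le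
  rw [div_mul_cancel₀ _ hL0.ne'] at h3
  linarith only [h, h2, h3]

theorem exists_big_fibre [DecidableEq R] (s : Finset κ) (hs : s.Nonempty) (f : κ → R)
    (t : Finset R) (hf : ∀ i ∈ s, f i ∈ t) :
    ∃ i0 ∈ s, s.card ≤ t.card * (s.filter fun i => f i = f i0).card := by
  obtain ⟨i0, h0, h1⟩ := exists_max_image s (fun i => (s.filter fun j => f j = f i).card) hs
  refine ⟨i0, h0, ?_⟩
  rw [card_eq_sum_card_fiberwise (f := f) (t := t) hf, ← smul_eq_mul]
  refine sum_le_card_nsmul _ _ _ fun y _ => ?_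
  rcases (s.filter fun j => f j = y).eq_empty_or_nonempty with h | ⟨j, hj⟩
  · rw [h]; exact Nat.zero_le _
  · rw [← (mem_filter.mp hj).2]
    exact h1 j (mem_filter.mp hj).1

variable [AddCommGroup R] [Fintype R] [DecidableEq R]

/-- The number of representations of `d` as a difference. -/
def rep (I : Finset κ) (x : κ → R) (d : R) : ℕ :=
  ((I ×ˢ I).filter fun z => x z.1 - x z.2 = d).card

omit [Fintype R] in
theorem sum_rep (I : Finset κ) (x : κ → R) (S : Finset R) :
    ∑ d ∈ S, rep I x d = ((I ×ˢ I).filter fun z => x z.1 - x z.2 ∈ S).card := by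
  rw [card_eq_sum_card_fiberwise (f := fun z : κ × κ => x z.1 - x z.2) (t := S)
    (s := (I ×ˢ I).filter fun z => x z.1 - x z.2 ∈ S) fun z hz => (mem_filter.mp hz).2]
  refine sum_congr rfl fun d hd => ?_
  rw [rep, filter_filter]
  congr 1
  exact filter_congr fun z _ => ⟨fun h => ⟨h ▸ hd, h⟩, fun h => h.2⟩

theorem level_step (I : Finset κ) (x : κ → R) (J : Finset κ') (ψ : κ' → AddChar R ℂ)
    (hI : I.Nonempty) (hJ : J.Nonempty) (β : ℝ) (hβ : 0 < β)
    (h : β * I.card * J.card ≤ ‖∑ i ∈ I, ∑ j ∈ J, ψ j (x i)‖) :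
    ∃ A : Finset R, A.Nonempty ∧ (∀ d ∈ A, β ^ 2 / 2 * J.card ≤ (∑ j ∈ J, ψ j d).re) ∧
      ∀ d ∈ A, β ^ 2 / 2 * (I.card : ℝ) ^ 2 ≤
        (1 + log (Fintype.card R)) * A.card * rep I x d := by
  classical
  have hI' : (0 : ℝ) < I.card := by exact_mod_cast hI.card_pos
  have hJ' : (0 : ℝ) < J.card := by exact_mod_cast hJ.card_pos
  set S := univ.filter fun d : R => β ^ 2 / 2 * J.card ≤ (∑ j ∈ J, ψ j d).re with hS
  have h1 : ∑ z ∈ I ×ˢ I, (∑ j ∈ J, ψ j (x z.1 - x z.2)).re =
      ∑ j ∈ J, ‖∑ i ∈ I, ψ j (x i)‖ ^ 2 := by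
    rw [← Complex.re_sum, sum_comm, Complex.re_sum]
    refine sum_congr rfl fun j _ => ?_
    rw [← Complex.normSq_eq_norm_sq, ← Complex.ofReal_re (Complex.normSq _),
      ← Complex.mul_conj, map_sum, sum_mul_sum, sum_product]
    simp only [sub_eq_add_neg, AddChar.map_add_eq_mul, AddChar.map_neg_eq_conj]
  have h2 : (β * I.card * J.card) ^ 2 ≤ J.card * ∑ j ∈ J, ‖∑ i ∈ I, ψ j (x i)‖ ^ 2 := by
    refine le_trans (pow_le_pow_left₀ (by positivity) (h.trans ?_) 2) sq_sum_le_card_mul_sum_sq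
    rw [sum_comm]
    exact norm_sum_le _ _
  have h3 : ∑ z ∈ I ×ˢ I, (∑ j ∈ J, ψ j (x z.1 - x z.2)).re ≤
      ∑ z ∈ I ×ˢ I, ((if x z.1 - x z.2 ∈ S then (J.card : ℝ) else 0) + β ^ 2 / 2 * J.card) := by
    refine sum_le_sum fun z _ => ?_
    split_ifs with hz
    · have : (∑ j ∈ J, ψ j (x z.1 - x z.2)).re ≤ J.card := by
        refine (Complex.re_le_norm _).trans ((norm_sum_le _ _).trans ?_)
        simp [AddChar.norm_apply]
      have : 0 ≤ β ^ 2 / 2 * J.card := by positivity
      linarith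
    · simp only [hS, mem_filter, mem_univ, true_and, not_le] at hz
      linarith only [hz]
  rw [sum_add_distrib, ← sum_filter, sum_const, sum_const, card_product, nsmul_eq_mul,
    nsmul_eq_mul, ← sum_rep, h1] at h3
  have h4 : β ^ 2 / 2 * (I.card : ℝ) ^ 2 ≤ ∑ d ∈ S, (rep I x d : ℝ) := by
    push_cast at h3
    have h5 := h2.trans (mul_le_mul_of_nonneg_left h3 hJ'.le)
    refine le_of_mul_le_mul_left ?_ (mul_pos hJ' hJ')
    linarith only [h5]
  obtain ⟨A, hA1, hA2, hA3⟩ := level_select (fun d => (rep I x d : ℝ)) S _ (by positivity) h4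
  exact ⟨A, hA2, fun d hd => (mem_filter.mp (hA1 hd)).2, hA3⟩

open Classical in
omit [Fintype R] in
theorem pullback (I : Finset κ) (x : κ → R) (hI : I.Nonempty) (A : Finset R) (hA : A.Nonempty)
    (C E : ℝ) (hC : 0 ≤ C) (hE : 0 ≤ E) (h : ∀ d ∈ A, (I.card : ℝ) ^ 2 ≤ C * A.card * rep I x d)
    (K : AddSubgroup R) (q : R ⧸ K)
    (hq : (A.card : ℝ) ≤ E * (A.filter fun d : R => (d : R ⧸ K) = q).card) :
    ∃ q' : R ⧸ K, (I.card : ℝ) ≤ C * E * (I.filter fun i => (x i : R ⧸ K) = q').card := by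
  have hI' : (0 : ℝ) < I.card := by exact_mod_cast hI.card_pos
  have hA' : (0 : ℝ) < A.card := by exact_mod_cast hA.card_pos
  set A' := A.filter fun d : R => (d : R ⧸ K) = q with hA'def
  obtain ⟨i0, -, h1⟩ := exists_max_image I
    (fun i' => (I.filter fun i => (x i : R ⧸ K) = q + x i').card) hI
  refine ⟨q + x i0, ?_⟩
  set N := (I.filter fun i => (x i : R ⧸ K) = q + x i0).card with hN
  have h2 : ∑ d ∈ A', rep I x d ≤ I.card * N := by
    rw [sum_rep, card_eq_sum_card_fiberwise (f := Prod.snd) (t := I)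
      fun z hz => (mem_product.mp (mem_filter.mp hz).1).2, ← smul_eq_mul]
    refine sum_le_card_nsmul _ _ _ fun i' hi' => le_trans ?_ (h1 i' hi')
    refine card_le_card_of_injOn Prod.fst (fun z hz => ?_) fun z hz w hw hzw => ?_
    · simp only [coe_filter, mem_filter, mem_product, Set.mem_ofPred_eq, hA'def] at hz ⊢
      refine ⟨hz.1.1.1, ?_⟩
      rw [← hz.1.2.2, ← hz.2, QuotientAddGroup.mk_sub, sub_add_cancel]
    · simp only [coe_filter, Set.mem_ofPred_eq] at hz hw
      exact Prod.ext hzw (hz.2.trans hw.2.symm)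
  have h3 : ∑ _d ∈ A', (I.card : ℝ) ^ 2 ≤ ∑ d ∈ A', C * A.card * rep I x d :=
    sum_le_sum fun d hd => h d (mem_filter.mp hd).1
  rw [sum_const, nsmul_eq_mul, ← mul_sum] at h3
  have h4 : ∑ d ∈ A', (rep I x d : ℝ) ≤ I.card * N := by exact_mod_cast h2
  have h5 := h3.trans (mul_le_mul_of_nonneg_left h4 (by positivity))
  have h6 := mul_le_mul_of_nonneg_left h5 hE
  have h7 := mul_le_mul_of_nonneg_right hq (sq_nonneg (I.card : ℝ))
  refine le_of_mul_le_mul_left ?_ (mul_pos hA' hI')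
  linarith only [h6, h7]

open Classical in
omit [DecidableEq R] in
theorem columns (J : Finset κ') (hJ : J.Nonempty) (ψ : κ' → AddChar R ℂ) (K : AddSubgroup R)
    (q : R ⧸ K) (A : Finset R) (hq : ∀ a ∈ A, (a : R ⧸ K) = q) (β : ℝ) (hβ : 0 ≤ β)
    (h : ∀ a ∈ A, β * J.card ≤ (∑ j ∈ J, ψ j a).re) :
    ∃ j0 ∈ J, β ^ 2 * A.card * J.card ≤
      Nat.card K * (J.filter fun j => ∀ k ∈ K, ψ j k = ψ j0 k).card := by
  have hJ' : (0 : ℝ) < J.card := by exact_mod_cast hJ.card_pos
  obtain ⟨j0, hj0, h1⟩ := exists_max_image J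
    (fun j' => (J.filter fun j => ∀ k ∈ K, ψ j k = ψ j' k).card) hJ
  refine ⟨j0, hj0, ?_⟩
  set N := (J.filter fun j => ∀ k ∈ K, ψ j k = ψ j0 k).card with hN
  obtain ⟨a0, rfl⟩ := QuotientAddGroup.mk_surjective q
  have h2 : ∑ _a ∈ A, (β * J.card) ^ 2 ≤ ∑ a ∈ A, ‖∑ j ∈ J, ψ j a‖ ^ 2 :=
    sum_le_sum fun a ha => pow_le_pow_left₀ (by positivity)
      ((h a ha).trans (Complex.re_le_norm _)) 2
  have h3 : ∑ a ∈ A, ‖∑ j ∈ J, ψ j a‖ ^ 2 ≤ ∑ k : K, ‖∑ j ∈ J, ψ j (a0 + k)‖ ^ 2 := by
    rw [← sum_image (s := univ) (g := fun k : K => a0 + (k : R))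
      (f := fun a => ‖∑ j ∈ J, ψ j a‖ ^ 2)
      fun k _ k' _ hk => Subtype.ext (add_left_cancel hk)]
    refine sum_le_sum_of_subset_of_nonneg (fun a ha => ?_) fun _ _ _ => by positivity
    refine mem_image.mpr ⟨⟨-a0 + a, QuotientAddGroup.eq.mp (hq a ha).symm⟩, mem_univ _, ?_⟩
    simp
  have h4 : ∑ k : K, ‖∑ j ∈ J, ψ j (a0 + k)‖ ^ 2 ≤
      ∑ j' ∈ J, ∑ j ∈ J, if ∀ k ∈ K, ψ j k = ψ j' k then (Nat.card K : ℝ) else 0 := by
    have e1 : ∑ k : K, ‖∑ j ∈ J, ψ j (a0 + k)‖ ^ 2 =
        (∑ j' ∈ J, ∑ j ∈ J, (ψ j a0 * conj (ψ j' a0)) *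
          ∑ k : K, ((ψ j - ψ j').compAddMonoidHom K.subtype) k).re := by
      simp only [mul_sum]
      simp_rw [sum_comm (s := J) (t := (univ : Finset K))]
      rw [Complex.re_sum]
      refine sum_congr rfl fun k _ => ?_
      rw [← Complex.normSq_eq_norm_sq, ← Complex.ofReal_re (Complex.normSq _),
        ← Complex.mul_conj, map_sum, sum_mul_sum, sum_comm]
      congr 1
      refine sum_congr rfl fun j' _ => sum_congr rfl fun j _ => ?_
      simp only [AddChar.map_add_eq_mul, AddChar.compAddMonoidHom_apply, AddChar.sub_apply,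
        AddChar.map_neg_eq_conj, map_mul, AddSubgroup.coe_subtype]
      ring
    rw [e1]
    refine (Complex.re_le_norm _).trans ((norm_sum_le _ _).trans (sum_le_sum fun j' _ =>
      (norm_sum_le _ _).trans (sum_le_sum fun j _ => ?_)))
    rw [norm_mul, norm_mul, Complex.norm_conj, AddChar.norm_apply, AddChar.norm_apply, one_mul,
      one_mul, AddChar.sum_eq_ite]
    split_ifs with h5 h6 h6
    · simp [Nat.card_eq_fintype_card]
    · refine absurd (fun k hk => ?_) h6
      have := DFunLike.congr_fun h5 ⟨k, hk⟩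
      simp only [AddChar.compAddMonoidHom_apply, AddChar.sub_apply', AddSubgroup.coe_subtype,
        AddChar.zero_apply] at this
      exact eq_of_div_eq_one this
    · simp
    · simp
  have h5 : (∑ j' ∈ J, ∑ j ∈ J, if ∀ k ∈ K, ψ j k = ψ j' k then (Nat.card K : ℝ) else 0) ≤
      ∑ _j' ∈ J, (N : ℝ) * Nat.card K := by
    refine sum_le_sum fun j' hj' => ?_
    rw [← sum_filter, sum_const, nsmul_eq_mul]
    exact mul_le_mul_of_nonneg_right (by exact_mod_cast h1 j' hj') (by positivity)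
  have h6 := h2.trans (h3.trans (h4.trans h5))
  rw [sum_const, sum_const, nsmul_eq_mul, nsmul_eq_mul] at h6
  refine le_of_mul_le_mul_left ?_ hJ'
  linarith only [h6]

end Pool.Agent.Lib.PFR
end

-- merged part: Pool.Agent.Lib.PFR.Duality
section
/-!
Approximate duality in abelian groups of bounded torsion.
-/

set_option autoImplicit false

open Finset Real

namespace Pool.Agent.Lib.PFR

open _root_.Pool.Agent.Lib.PFR.FP

/-- The uniform distribution on a nonempty finite set. -/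
noncomputable def unif {Ω : Type*} [Fintype Ω] (A : Finset Ω) (hA : A.Nonempty) : FP Ω where
  p ω := ind (ω ∈ A) / A.card
  nonneg _ := div_nonneg (ind_nonneg _) (Nat.cast_nonneg _)
  sum_one := by
    classical
    have h : (0 : ℝ) < A.card := by exact_mod_cast hA.card_pos
    rw [← sum_div, div_eq_one_iff_eq h.ne']
    have : ∀ ω, ind (ω ∈ A) = if ω ∈ A then (1 : ℝ) else 0 := fun ω => by
      split_ifs with h0
      · exact ind_pos h0
      · exact ind_neg h0
    simp [this]

theorem unif_supp {Ω : Type*} [Fintype Ω] {A : Finset Ω} {hA : A.Nonempty} {ω : Ω}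
    (h : (unif A hA).p ω ≠ 0) : ω ∈ A := by
  by_contra h0
  exact h (by simp [unif, ind_neg h0])

theorem H_unif {Ω : Type*} [Fintype Ω] (A : Finset Ω) (hA : A.Nonempty) :
    H (unif A hA) = log A.card := by
  rw [H, ent, ← (unif A hA).ex_const (log A.card)]
  refine ex_congr _ fun ω h => ?_
  rw [pv, pr_eq_self]
  simp [unif, ind_pos (unif_supp h)]

variable {R : Type*} [AddCommGroup R] [Fintype R] [DecidableEq R]

open Classical in
theorem critical {m : ℕ} [NeZero m] (hm : 3 ≤ m) (hG : ∀ x : R, m • x = 0) (A A' : Finset R)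
    (hA : A.Nonempty) (hA' : A'.Nonempty) (c u : ℝ)
    (h : ∀ d ∈ A', (A.card : ℝ) ^ 2 ≤ exp c * A'.card * rep A (fun x => x) d)
    (hu : (A'.card : ℝ) ≤ exp u * A.card) :
    ∃ (K : AddSubgroup R) (q : R ⧸ K),
      (A.card : ℝ) ≤ exp ((1 + Cp m) * (4 * c + 3 * u)) *
        (A.filter fun d : R => (d : R ⧸ K) = q).card ∧
      (Nat.card K : ℝ) ≤ exp (Cp m * (4 * c + 3 * u)) * A.card := by
  have hA0 : (0 : ℝ) < A.card := by exact_mod_cast hA.card_pos
  have hA0' : (0 : ℝ) < A'.card := by exact_mod_cast hA'.card_pos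
  set Γ := (A ×ˢ A).filter fun z => z.1 - z.2 ∈ A' with hΓ
  have h1 : (A.card : ℝ) ^ 2 ≤ exp c * Γ.card := by
    have h2 := sum_le_sum h
    rw [sum_const, nsmul_eq_mul, ← mul_sum, ← Nat.cast_sum, sum_rep] at h2
    refine le_of_mul_le_mul_left ?_ hA0'
    linarith only [h2]
  have hΓ0 : (0 : ℝ) < Γ.card := by
    by_contra h0
    have : (Γ.card : ℝ) = 0 := le_antisymm (not_lt.mp h0) (Nat.cast_nonneg _)
    rw [this, mul_zero] at h1
    linarith only [h1, hA0, mul_pos_of_neg_of_neg (Mathlib.Tactic.Linarith.sub_neg_of_lt hA0) (Mathlib.Tactic.Linarith.sub_neg_of_lt hA0)]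
  have hΓne : Γ.Nonempty := card_pos.mp (by exact_mod_cast hΓ0)
  set P := unif Γ hΓne with hP
  have hs : ∀ z, P.p z ≠ 0 → z.1 ∈ A ∧ z.2 ∈ A ∧ z.1 - z.2 ∈ A' := fun z hz => by
    have := mem_filter.mp (unif_supp hz)
    exact ⟨(mem_product.mp this.1).1, (mem_product.mp this.1).2, this.2⟩
  have hb := bsg P (fun z => - z.2) (fun z => z.1) fun _ => ()
  set V : R × R → R × Unit := fun z => (- z.2 + z.1, ()) with hV
  have l1 : 2 * log A.card - c ≤ log Γ.card := by
    have := log_le_log (by positivity) h1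
    rw [log_pow, log_mul (exp_pos c).ne' hΓ0.ne', log_exp] at this
    push_cast at this
    linarith
  have l2 : log A'.card ≤ u + log A.card := by
    have := log_le_log hA0' hu
    rwa [log_mul (exp_pos u).ne' hA0.ne', log_exp] at this
  have e1 : P.ent (fun z => (- z.2, ())) ≤ log A.card :=
    (P.ent_mono fun z w h => by rw [h]).trans (P.ent_le_log Prod.snd A fun z hz => (hs z hz).2.1)
  have e2 : P.ent (fun z => (z.1, ())) ≤ log A.card :=
    (P.ent_mono fun z w h => by rw [h]).trans (P.ent_le_log Prod.fst A fun z hz => (hs z hz).1)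
  have e3 : P.ent (fun z => (- z.2, z.1, ())) = log Γ.card := by
    rw [← H_unif Γ hΓne]
    exact P.ent_congr fun z w => by simp [Prod.ext_iff, and_comm]
  have e4 : P.ent V ≤ log A'.card :=
    (P.ent_mono fun z w h => by simp only [hV, neg_add_eq_sub, h]).trans
      (P.ent_le_log (fun z => z.1 - z.2) A' fun z hz => (hs z hz).2.2)
  have e5 : P.ent (fun _ => ()) = 0 := P.ent_const fun _ _ _ _ => rfl
  have e6 : P.ex (fun z => H ((P.fib V z).map fun z => z.1)) = log Γ.card - P.ent V := by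
    simp only [H_map]
    rw [ex_ent_fib, ← H_unif Γ hΓne]
    congr 1
    refine P.ent_congr fun z w => ?_
    simp only [hV, Prod.mk.injEq, and_true]
    constructor
    · rintro ⟨h1, h2⟩
      rw [h1] at h2
      exact Prod.ext h1 (neg_injective (add_right_cancel h2))
    · rintro rfl
      exact ⟨rfl, rfl⟩
  obtain ⟨z, hz, hz'⟩ := P.exists_le_ex fun z =>
    (H ((P.fib V z).map (fun z => z.1) * (P.fib V z).map fun z => z.1) -
      H ((P.fib V z).map fun z => z.1)) + (log A.card - H ((P.fib V z).map fun z => z.1))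
  rw [ex_add, P.ex_sub (fun _ => log A.card), ex_const, e6] at hz'
  set U := (P.fib V z).map fun z => z.1 with hU
  have hUA : ∀ x, U.p x ≠ 0 → x ∈ A := fun x hx => by
    obtain ⟨w, hw, rfl⟩ := map_supp _ _ hx
    exact (hs w (fib_supp hz hw).1).1
  have e7 : H U ≤ log A.card := U.ent_le_log _ A hUA
  have e8 := H_le_mul U U
  obtain ⟨K, hK1, hK2⟩ := pfr hm hG U
  have hCp := Cp_pos m
  have e9 : Cp m * (H (U * U) - H U) ≤ Cp m * (4 * c + 3 * u) :=
    mul_le_mul_of_nonneg_left (by linarith only [hb, l1, l2, e1, e2, e3, e4, e5, hz', e7]) hCp.le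
  obtain ⟨q, hq⟩ := Finite.exists_max fun q : R ⧸ K => (A.filter fun d : R => (d : R ⧸ K) = q).card
  have e10 := U.ent_le_add_log (fun x => x) (fun x => (x : R ⧸ K))
    (A.filter fun d : R => (d : R ⧸ K) = q).card (fun q => A.filter fun d : R => (d : R ⧸ K) = q)
    (fun x hx => mem_filter.mpr ⟨hUA x hx, rfl⟩) fun x _ => by exact_mod_cast hq _
  have hN : (0 : ℝ) < (A.filter fun d : R => (d : R ⧸ K) = q).card := by
    obtain ⟨a, ha⟩ := hA
    have : (A.filter fun d : R => (d : R ⧸ K) = (a : R ⧸ K)).Nonempty :=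
      ⟨a, mem_filter.mpr ⟨ha, rfl⟩⟩
    exact_mod_cast this.card_pos.trans_le (hq a)
  refine ⟨K, q, ?_, ?_⟩
  · rw [← exp_log hA0, ← exp_log hN, ← exp_add, exp_le_exp]
    change H U ≤ _ at e10
    linarith
  · have hK0 : (0 : ℝ) < Nat.card K := by exact_mod_cast Nat.card_pos
    rw [← exp_log hA0, ← exp_log hK0, ← exp_add, exp_le_exp]
    linarith

open Classical in
theorem duality_aux {m : ℕ} [NeZero m] (hm : 3 ≤ m) (t : ℕ) :
    ∀ β : ℝ, 0 < β → β ≤ 1 → ∃ c b : ℝ, 0 ≤ c ∧ 0 ≤ b ∧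
      ∀ (R : Type) [AddCommGroup R] [Fintype R] (κ : Type) (J : Finset κ) (ψ : κ → AddChar R ℂ)
        (u : ℝ) (A : Finset R), (∀ x : R, m • x = 0) → J.Nonempty → 0 ≤ u → A.Nonempty →
        (∀ a ∈ A, β * J.card ≤ (∑ j ∈ J, ψ j a).re) →
        (Fintype.card R : ℝ) < A.card * exp (t * u) →
        ∃ (K : AddSubgroup R) (q : R ⧸ K), ∃ j0 ∈ J,
          (A.card : ℝ) ≤ exp (c + 3 * (1 + 2 * Cp m) * u + b * log (1 + log (Fintype.card R))) *
            (A.filter fun d : R => (d : R ⧸ K) = q).card ∧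
          (J.card : ℝ) ≤ exp (c + 3 * (1 + 2 * Cp m) * u + b * log (1 + log (Fintype.card R))) *
            (J.filter fun j => ∀ k ∈ K, ψ j k = ψ j0 k).card := by
  induction t with
  | zero =>
    intro β _ _
    refine ⟨0, 0, le_rfl, le_rfl, fun R _ _ κ J ψ u A _ _ _ _ _ h => ?_⟩
    have : (A.card : ℝ) ≤ Fintype.card R := by exact_mod_cast card_le_univ A
    simp only [Nat.cast_zero, zero_mul, exp_zero, mul_one] at h
    linarith
  | succ t ih =>
    intro β hβ hβ1
    have hβ' : 0 < β ^ 2 / 2 := by positivity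
    have hβ1' : β ^ 2 / 2 ≤ 1 := by linarith only [hβ1, hβ, mul_nonneg_of_nonpos_of_nonpos (le_of_lt (Mathlib.Tactic.Linarith.sub_neg_of_lt hβ)) (Mathlib.Tactic.Linarith.sub_nonpos_of_le hβ1)]
    obtain ⟨c, b, hc, hb, hih⟩ := ih (β ^ 2 / 2) hβ' hβ1'
    have hCp := Cp_pos m
    set l := - log (β ^ 2 / 2) with hl
    have hl0 : 0 ≤ l := neg_nonneg.mpr (log_nonpos hβ'.le hβ1')
    refine ⟨c + l + 4 * (1 + 2 * Cp m) * l, b + 1 + 4 * (1 + 2 * Cp m), by positivity,
      by positivity, fun R _ _ κ J ψ u A hG hJ hu hA h1 h2 => ?_⟩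
    set v := log (1 + log (Fintype.card R)) with hv
    have hL := log_natCast_nonneg (Fintype.card R)
    have hv0 : 0 ≤ v := log_nonneg (by linarith only [hL])
    have hA0 : (0 : ℝ) < A.card := by exact_mod_cast hA.card_pos
    have hJ0 : (0 : ℝ) < J.card := by exact_mod_cast hJ.card_pos
    obtain ⟨A', hA', h3, h4⟩ := level_step A (fun x => x) J ψ hA hJ β hβ (by
      refine le_trans ?_ (Complex.re_le_norm _)
      rw [Complex.re_sum]
      have := sum_le_sum h1
      rw [sum_const, nsmul_eq_mul] at this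
      linarith only [this])
    have hexp : exp (l + v) = (1 + log (Fintype.card R)) / (β ^ 2 / 2) := by
      rw [exp_add, hl, exp_neg, exp_log hβ', hv, exp_log (by linarith only [hL])]
      ring
    have h5 : ∀ d ∈ A', (A.card : ℝ) ^ 2 ≤ exp (l + v) * A'.card * rep A (fun x => x) d := by
      intro d hd
      rw [hexp, div_mul_eq_mul_div, div_mul_eq_mul_div, le_div_iff₀ hβ', mul_comm]
      exact h4 d hd
    by_cases hcase : (A'.card : ℝ) ≤ exp u * A.card
    · obtain ⟨K, q, h6, h7⟩ := critical hm hG A A' hA hA' (l + v) u h5 hcase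
      obtain ⟨j0, hj0, h8⟩ := columns J hJ ψ K q (A.filter fun d : R => (d : R ⧸ K) = q)
        (fun a ha => (mem_filter.mp ha).2) β hβ.le fun a ha => h1 a (mem_filter.mp ha).1
      refine ⟨K, q, j0, hj0, h6.trans (mul_le_mul_of_nonneg_right (exp_le_exp.mpr ?_)
        (Nat.cast_nonneg _)), ?_⟩
      · clear * - m l v u c b β hc hl0 hv0 hCp hu hb; nlinarith [mul_nonneg hCp.le hu, mul_nonneg hCp.le hl0, mul_nonneg hCp.le hv0,
          mul_nonneg hb hv0]
      · set N : ℝ := ((A.filter fun d : R => (d : R ⧸ K) = q).card : ℝ)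
        set N' : ℝ := ((J.filter fun j => ∀ k ∈ K, ψ j k = ψ j0 k).card : ℝ)
        have hN' : 0 ≤ N' := Nat.cast_nonneg _
        have h9 : exp (- l) ≤ β ^ 2 := by
          rw [hl, _root_.neg_neg, exp_log hβ']; linarith only [hβ']
        have h10 : exp (- l) * A.card * J.card ≤
            exp ((1 + Cp m) * (4 * (l + v) + 3 * u)) * (exp (Cp m * (4 * (l + v) + 3 * u)) *
              A.card * N') :=
          calc exp (- l) * A.card * J.card
              ≤ β ^ 2 * (exp ((1 + Cp m) * (4 * (l + v) + 3 * u)) * N) * J.card := by clear * - κ J l R A β m v u N h9 h6 hA hβ hJ; gcongr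
            _ = exp ((1 + Cp m) * (4 * (l + v) + 3 * u)) * (β ^ 2 * N * J.card) := by ring
            _ ≤ _ := by
              refine mul_le_mul_of_nonneg_left (h8.trans ?_) (exp_pos _).le
              exact mul_le_mul_of_nonneg_right h7 hN'
        have h11 : (J.card : ℝ) ≤ exp l * exp ((1 + Cp m) * (4 * (l + v) + 3 * u)) *
            exp (Cp m * (4 * (l + v) + 3 * u)) * N' := by
          refine le_of_mul_le_mul_left ?_ (mul_pos (exp_pos (- l)) hA0)
          have : exp (- l) * exp l = 1 := by rw [← exp_add]; simp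
          calc _ ≤ _ := h10
            _ = (exp (- l) * exp l) * (exp ((1 + Cp m) * (4 * (l + v) + 3 * u)) *
                (exp (Cp m * (4 * (l + v) + 3 * u)) * A.card * N')) := by rw [this, one_mul]
            _ = _ := by ring
        refine h11.trans (mul_le_mul_of_nonneg_right ?_ hN')
        rw [← exp_add, ← exp_add, exp_le_exp]
        clear * - l m v u c b β hc hv0 hb; nlinarith [mul_nonneg hb hv0]
    · obtain ⟨K, q, j0, hj0, h6, h7⟩ := hih R κ J ψ u A' hG hJ hu hA' h3 (by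
        refine h2.trans_le ?_
        push_cast
        rw [add_mul, one_mul, exp_add, mul_comm (exp (t * u)), ← mul_assoc, mul_comm _ (exp u)]
        exact mul_le_mul_of_nonneg_right (not_le.mp hcase).le (exp_pos _).le)
      obtain ⟨q', h8⟩ := pullback A (fun x => x) hA A' hA' _ _ (exp_pos _).le (exp_pos _).le h5 K q
        h6
      refine ⟨K, q', j0, hj0, h8.trans (mul_le_mul_of_nonneg_right ?_ (Nat.cast_nonneg _)),
        h7.trans (mul_le_mul_of_nonneg_right (exp_le_exp.mpr ?_) (Nat.cast_nonneg _))⟩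
      · rw [← exp_add, exp_le_exp]
        clear * - l v c m u b R β hl0 hv0 hCp; nlinarith [mul_nonneg hCp.le hl0, mul_nonneg hCp.le hv0]
      · clear * - c m u b R l v β hl0 hv0 hCp; nlinarith [mul_nonneg hCp.le hl0, mul_nonneg hCp.le hv0]

open Classical in
/-- Approximate duality: a biased pairing is constant on a large rectangle. -/
theorem approx_duality {m : ℕ} (hm : 3 ≤ m) (α δ : ℝ) (hα : 0 < α) (hδ : 0 < δ) :
    ∃ c : ℝ, 0 < c ∧ ∀ (R : Type) [AddCommGroup R] [Fintype R] (κ κ' : Type) (I : Finset κ)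
      (J : Finset κ') (x : κ → R) (ψ : κ' → AddChar R ℂ), (∀ x : R, m • x = 0) → I.Nonempty →
      J.Nonempty → α * I.card * J.card ≤ ‖∑ i ∈ I, ∑ j ∈ J, ψ j (x i)‖ →
      ∃ I₁ ⊆ I, ∃ J₁ ⊆ J, ∃ z : ℂ, c * I.card ≤ (Fintype.card R : ℝ) ^ δ * I₁.card ∧
        c * J.card ≤ (Fintype.card R : ℝ) ^ δ * J₁.card ∧ ∀ i ∈ I₁, ∀ j ∈ J₁, ψ j (x i) = z := by
  have : NeZero m := ⟨by omega⟩
  have hCp := Cp_pos m
  obtain ⟨T, hT⟩ := exists_nat_ge (6 * (1 + 2 * Cp m) / δ)
  have hT0 : (0 : ℝ) < T := lt_of_lt_of_le (by positivity) hT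
  set β := min α 1 with hβdef
  have hβ : 0 < β := lt_min hα one_pos
  have hβ1 : β ≤ 1 := min_le_right _ _
  have hβ' : 0 < β ^ 2 / 2 := by positivity
  have hβ1' : β ^ 2 / 2 ≤ 1 := by linarith only [hβ1, hβ, mul_nonneg_of_nonpos_of_nonpos (le_of_lt (Mathlib.Tactic.Linarith.sub_neg_of_lt hβ)) (Mathlib.Tactic.Linarith.sub_nonpos_of_le hβ1)]
  obtain ⟨c, b, hc, hb, H⟩ := duality_aux hm T (β ^ 2 / 2) hβ' hβ1'
  set l := - log (β ^ 2 / 2) with hl
  have hl0 : 0 ≤ l := neg_nonneg.mpr (log_nonpos hβ'.le hβ1')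
  set ε := δ / (2 * (b + 1)) with hε
  have hε0 : 0 < ε := by positivity
  set c0 := c + l + δ / 2 + (b + 1) * (ε - 1 - log ε) with hc0
  have hm0 : (0 : ℝ) < m := by exact_mod_cast (by omega : 0 < m)
  refine ⟨exp (- c0) / m, by positivity, fun R _ _ κ κ' I J x ψ hG hI hJ h => ?_⟩
  set L := log (Fintype.card R) with hLdef
  have hL : 0 ≤ L := log_natCast_nonneg _
  have hR0 : (0 : ℝ) < Fintype.card R := by exact_mod_cast Fintype.card_pos
  set v := log (1 + L) with hv
  have hv0 : 0 ≤ v := log_nonneg (by linarith only [hL])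
  have hv1 : v ≤ ε * (1 + L) - 1 - log ε := by
    have := log_le_sub_one_of_pos (mul_pos hε0 (by linarith only [hL] : 0 < 1 + L))
    rw [log_mul hε0.ne' (by linarith only [hL])] at this
    linarith only [this]
  obtain ⟨A, hA, h3, h4⟩ := level_step I x J ψ hI hJ β hβ (le_trans (by
    clear * - κ' J β κ I α hI hJ h
    gcongr; exact min_le_left _ _) h)
  have hexp : exp (l + v) = (1 + L) / (β ^ 2 / 2) := by
    rw [exp_add, hl, exp_neg, exp_log hβ', hv, exp_log (by linarith only [hL])]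
    ring
  have h5 : ∀ d ∈ A, (I.card : ℝ) ^ 2 ≤ exp (l + v) * A.card * rep I x d := by
    intro d hd
    rw [hexp, div_mul_eq_mul_div, div_mul_eq_mul_div, le_div_iff₀ hβ', mul_comm]
    exact h4 d hd
  obtain ⟨K, q, j0, hj0, h6, h7⟩ := H R κ' J ψ ((L + 1) / T) A hG hJ (by positivity) hA h3 (by
    rw [mul_div_cancel₀ _ hT0.ne']
    have h1 : (1 : ℝ) ≤ A.card := by exact_mod_cast hA.card_pos
    have h2 : (Fintype.card R : ℝ) < exp (L + 1) := by
      rw [← exp_log hR0, exp_lt_exp]; linarith only []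
    linarith only [h2, h1, exp_pos (L + 1), mul_nonneg_of_nonpos_of_nonpos (Mathlib.Tactic.Linarith.sub_nonpos_of_le (Mathlib.Tactic.Linarith.natCast_nonneg ℝ (Fintype.card R))) (Mathlib.Tactic.Linarith.sub_nonpos_of_le h1), mul_nonneg_of_nonpos_of_nonpos (Mathlib.Tactic.Linarith.sub_nonpos_of_le h1) (le_of_lt (Mathlib.Tactic.Linarith.sub_neg_of_lt h2))])
  obtain ⟨q', h8⟩ := pullback I x hI A hA _ _ (exp_pos _).le (exp_pos _).le h5 K q h6
  have hkey : l + v + (c + 3 * (1 + 2 * Cp m) * ((L + 1) / T) + b * v) ≤ c0 + δ * L := by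
    clear * - m this L T δ hT0 hδ hT hL b v ε hv1 hb hε l c c0 β hc0
    have a1 : 3 * (1 + 2 * Cp m) * ((L + 1) / T) ≤ δ / 2 * (L + 1) := by
      rw [← mul_div_assoc, mul_div_right_comm]
      refine mul_le_mul_of_nonneg_right ?_ (by linarith only [hL])
      rw [div_le_iff₀ hδ] at hT
      rw [div_le_iff₀ hT0]
      linarith only [this, hT]
    have a2 : (b + 1) * v ≤ (b + 1) * (ε * (1 + L) - 1 - log ε) :=
      mul_le_mul_of_nonneg_left hv1 (by linarith only [hb])
    have a3 : (b + 1) * ε = δ / 2 := by rw [hε]; field_simp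
    have a4 : (b + 1) * (ε * L) = δ / 2 * L := by rw [← a3]; ring
    linarith only [this, hc0, a1, a2, a4]
  have hpow : (Fintype.card R : ℝ) ^ δ = exp (δ * L) := by
    rw [rpow_def_of_pos hR0, mul_comm]
  set I' := I.filter fun i => (x i : R ⧸ K) = q' with hI'
  set J' := J.filter fun j => ∀ k ∈ K, ψ j k = ψ j0 k with hJ'
  have h9 : (I.card : ℝ) ≤ exp (c0 + δ * L) * I'.card := by
    refine h8.trans (mul_le_mul_of_nonneg_right ?_ (Nat.cast_nonneg _))
    rw [← exp_add, exp_le_exp]; exact hkey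
  have h10 : (J.card : ℝ) ≤ exp (c0 + δ * L) * J'.card :=
    h7.trans (mul_le_mul_of_nonneg_right (exp_le_exp.mpr (by linarith only [this, hl0, hv0, hkey])) (Nat.cast_nonneg _))
  have hI'ne : I'.Nonempty := by
    rw [← card_pos]
    have : (0 : ℝ) < I.card := by exact_mod_cast hI.card_pos
    exact_mod_cast (mul_pos_iff_of_pos_left (exp_pos _)).mp (this.trans_le h9)
  obtain ⟨i0, hi0⟩ := hI'ne
  have hroot : ∀ j a, ψ j a ∈ Polynomial.nthRootsFinset m (1 : ℂ) := fun j a => by
    rw [Polynomial.mem_nthRootsFinset (by omega), ← AddChar.map_nsmul_eq_pow, hG,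
      AddChar.map_zero_eq_one]
  have hcard : (Polynomial.nthRootsFinset m (1 : ℂ)).card = m :=
    (Complex.isPrimitiveRoot_exp m (by omega)).card_nthRootsFinset
  obtain ⟨i1, -, h11⟩ := exists_big_fibre I' ⟨i0, hi0⟩ (fun i => ψ j0 (x i - x i0)) _
    fun i _ => hroot _ _
  obtain ⟨j1, -, h12⟩ := exists_big_fibre J' ⟨j0, mem_filter.mpr ⟨hj0, fun _ _ => rfl⟩⟩
    (fun j => ψ j (x i0)) _ fun j _ => hroot _ _
  rw [hcard] at h11 h12
  have fin : ∀ a b n : ℕ, (a : ℝ) ≤ exp (c0 + δ * L) * b → b ≤ m * n →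
      exp (- c0) / m * a ≤ exp (δ * L) * n := by
    clear * - c0 δ L m hm0 b
    intro a b n h1 h2
    have h2' : (b : ℝ) ≤ m * n := by exact_mod_cast h2
    rw [div_mul_eq_mul_div, div_le_iff₀ hm0]
    calc exp (- c0) * a ≤ exp (- c0) * (exp (c0 + δ * L) * (m * n)) := by
          gcongr; exact h1.trans (by gcongr)
      _ = _ := by rw [← mul_assoc, ← exp_add, neg_add_cancel_left]; ring
  refine ⟨_, (filter_subset _ _).trans (filter_subset _ _), _,
    (filter_subset _ _).trans (filter_subset _ _), ψ j0 (x i1 - x i0) * ψ j1 (x i0),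
    hpow ▸ fin _ _ _ h9 h11, hpow ▸ fin _ _ _ h10 h12, fun i hi j hj => ?_⟩
  obtain ⟨hi1, hi2⟩ := mem_filter.mp hi
  obtain ⟨hj1, hj2⟩ := mem_filter.mp hj
  have hk : x i - x i0 ∈ K := by
    rw [← QuotientAddGroup.eq_iff_sub_mem, (mem_filter.mp hi1).2, (mem_filter.mp hi0).2]
  rw [← hi2, ← hj2, ← (mem_filter.mp hj1).2 _ hk, ← AddChar.map_add_eq_mul, sub_add_cancel]

end Pool.Agent.Lib.PFR
end
end
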